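import Pool.Agent.H549R2.HY.Defs

namespace Pool.Agent.NPC.H549HY

open Pool.Agent.H625R2 Pool.Agent.NPC.ER Pool.Agent.NPC.ER.Tens Pool.Agent.NPC.H670R2
open Pool.Agent.NPC.H549CV

theorem Y4_sum_getD (F : List (List (Bool × ℕ × ℕ))) (v w : ℕ → ℝ) :
    ∑ k ∈ Finset.range F.length, bval (F.getD k []) v w ^ 2 = SS F v w := by
  induction F with
  | nil => simp [SS_nil]
  | cons b F ih =>
    rw [List.length_cons, Finset.sum_range_succ', SS_cons]
    simp only [List.getD_cons_succ, List.getD_cons_zero]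
    rw [ih]
    ring

theorem Y4_sgnZ_cast (b : Bool) : ((sgnZ b : ℤ) : ℝ) = sgn b := by
  cases b <;> simp [sgnZ, sgn]

theorem Y4_trl_eq (N : ℕ) (F : List (List (Bool × ℕ × ℕ))) (x : ℕ → ℝ) :
    trl N F x = ∑ j ∈ Finset.range F.length, x (1 + 2 * N + j) *
      bval (F.getD j []) (fun i => x (1 + i)) (fun i => x (1 + N + i)) := by
  unfold trl
  apply Finset.sum_congr rfl
  intro j _
  congr 1
  unfold bval
  congr 1
  apply List.map_congr_left
  intro b _
  rw [Y4_sgnZ_cast]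

theorem trl_sq_le {σ : ℝ} {N : ℕ} {F : List (List (Bool × ℕ × ℕ))}
    (hb : ∀ v w : ℕ → ℝ, 0 ≤ bq (σ ^ 2) N F v w) (x : ℕ → ℝ) :
    trl N F x ^ 2 ≤ σ ^ 2 * (inn N (fun i => x (1 + i)) (fun i => x (1 + i)) *
      inn N (fun i => x (1 + N + i)) (fun i => x (1 + N + i)) *
      ∑ j ∈ Finset.range F.length, x (1 + 2 * N + j) ^ 2) := by
  rw [Y4_trl_eq]
  have h1 := Finset.sum_mul_sq_le_sq_mul_sq (Finset.range F.length)
    (fun j => x (1 + 2 * N + j))
    (fun j => bval (F.getD j []) (fun i => x (1 + i)) (fun i => x (1 + N + i)))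
  rw [Y4_sum_getD] at h1
  have h2 := hb (fun i => x (1 + i)) (fun i => x (1 + N + i))
  unfold bq at h2
  have h3 : 0 ≤ ∑ j ∈ Finset.range F.length, x (1 + 2 * N + j) ^ 2 :=
    Finset.sum_nonneg fun j _ => sq_nonneg _
  have h4 := mul_nonneg h3 h2
  refine h1.trans ?_
  nlinarith

theorem Y4_inn_nonneg (N : ℕ) (v : ℕ → ℝ) : 0 ≤ inn N v v :=
  Finset.sum_nonneg fun i _ => mul_self_nonneg _

theorem qua_eq (N : ℕ) (F : List (List (Bool × ℕ × ℕ))) (x : ℕ → ℝ) :
    qua N (nv N F) x = inn N (fun i => x (1 + i)) (fun i => x (1 + i)) +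
      inn N (fun i => x (1 + N + i)) (fun i => x (1 + N + i)) +
      3 * ∑ j ∈ Finset.range F.length, x (1 + 2 * N + j) ^ 2 := by
  unfold qua nv inn
  rw [Finset.sum_range_add, show 1 + 2 * N = 1 + (N + N) by ring, Finset.sum_range_add,
    Finset.sum_range_add, Finset.mul_sum]
  have e0 : ∑ i ∈ Finset.range 1, ((dd N i : ℤ) : ℝ) * x i ^ 2 = 0 := by
    simp [dd]
  have e1 : ∑ i ∈ Finset.range N, ((dd N (1 + i) : ℤ) : ℝ) * x (1 + i) ^ 2 =
      ∑ i ∈ Finset.range N, x (1 + i) * x (1 + i) := by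
    apply Finset.sum_congr rfl
    intro i hi
    have hi' := Finset.mem_range.1 hi
    have : dd N (1 + i) = 1 := by
      unfold dd
      rw [if_neg (by omega), if_pos (by omega)]
    rw [this]; push_cast; ring
  have e2 : ∑ i ∈ Finset.range N, ((dd N (1 + (N + i)) : ℤ) : ℝ) * x (1 + (N + i)) ^ 2 =
      ∑ i ∈ Finset.range N, x (1 + N + i) * x (1 + N + i) := by
    apply Finset.sum_congr rfl
    intro i hi
    have hi' := Finset.mem_range.1 hi
    have : dd N (1 + (N + i)) = 1 := by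
      unfold dd
      rw [if_neg (by omega), if_pos (by omega)]
    rw [this, ← add_assoc]; push_cast; ring
  have e3 : ∑ i ∈ Finset.range F.length, ((dd N (1 + (N + N) + i) : ℤ) : ℝ) *
      x (1 + (N + N) + i) ^ 2 =
      ∑ i ∈ Finset.range F.length, 3 * x (1 + (N + N) + i) ^ 2 := by
    apply Finset.sum_congr rfl
    intro i _
    have : dd N (1 + (N + N) + i) = 3 := by
      unfold dd
      rw [if_neg (by omega), if_neg (by omega)]
    rw [this]; push_cast; ring
  rw [e0, e1, e2, e3, zero_add]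

theorem unsat_le {σ : ℝ} {N : ℕ} {F : List (List (Bool × ℕ × ℕ))}
    (hb : ∀ v w : ℕ → ℝ, 0 ≤ bq (σ ^ 2) N F v w) (x : ℕ → ℝ) :
    81 * trl N F x ^ 2 ≤ σ ^ 2 * qua N (nv N F) x ^ 3 := by
  have h1 := trl_sq_le hb x
  rw [qua_eq]
  have hA := Y4_inn_nonneg N (fun i => x (1 + i))
  have hB := Y4_inn_nonneg N (fun i => x (1 + N + i))
  have hD : 0 ≤ ∑ j ∈ Finset.range F.length, x (1 + 2 * N + j) ^ 2 :=
    Finset.sum_nonneg fun j _ => sq_nonneg _
  set A := inn N (fun i => x (1 + i)) (fun i => x (1 + i))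
  set B := inn N (fun i => x (1 + N + i)) (fun i => x (1 + N + i))
  set D := ∑ j ∈ Finset.range F.length, x (1 + 2 * N + j) ^ 2
  have h2 : 81 * (A * B * D) ≤ (A + B + 3 * D) ^ 3 := by
    have g : ∀ a b c : ℝ, 0 ≤ a → 0 ≤ b → 0 ≤ c → 27 * (a * b * c) ≤ (a + b + c) ^ 3 := by
      intro a b c ha hb hc
      nlinarith [mul_nonneg ha (sq_nonneg (b - c)), mul_nonneg hb (sq_nonneg (a - c)),
        mul_nonneg hc (sq_nonneg (a - b)), mul_nonneg ha (sq_nonneg (a - b)),
        mul_nonneg ha (sq_nonneg (a - c)), mul_nonneg hb (sq_nonneg (b - c)),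
        mul_nonneg hb (sq_nonneg (a - b)), mul_nonneg hc (sq_nonneg (a - c)),
        mul_nonneg hc (sq_nonneg (b - c))]
    have := g A B (3 * D) hA hB (by positivity)
    nlinarith
  have h3 := mul_le_mul_of_nonneg_left h2 (sq_nonneg σ)
  nlinarith

end Pool.Agent.NPC.H549HY
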