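import Pool.Agent.H549R2.HY.Y1
import Pool.Agent.H549R2.HY.Y4

namespace Pool.Agent.NPC.H549HY

open Pool.Agent.H625R2 Pool.Agent.NPC.ER Pool.Agent.NPC.ER.Tens Pool.Agent.NPC.H670R2
open Pool.Agent.NPC.H549CV

theorem Y10_sq (n : ℕ) (f : ℕ → ℝ) (hf : ∀ i < n, 0 < f i) :
    0 ≤ ∑ i ∈ Finset.range n, f i ∧
      ∑ i ∈ Finset.range n, f i ^ 2 ≤ (∑ i ∈ Finset.range n, f i) ^ 2 := by
  induction n with
  | zero => simp
  | succ n ih =>
    obtain ⟨h1, h2⟩ := ih (fun i hi => hf i (by omega))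
    have h3 := hf n (by omega)
    rw [Finset.sum_range_succ, Finset.sum_range_succ]
    constructor
    · linarith
    · nlinarith [mul_nonneg h1 h3.le]

theorem Y10_lin (N : ℕ) (F : List (List (Bool × ℕ × ℕ))) (y : ℕ → ℝ) :
    lin 4 (nv N F) y = y 0 + 4 * (∑ i ∈ Finset.range N, y (1 + i) +
      ∑ i ∈ Finset.range N, y (1 + N + i) + ∑ j ∈ Finset.range F.length, y (1 + 2 * N + j)) := by
  have h0 : nv N F = 1 + N + N + F.length := by unfold nv; ring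
  have hc : ∀ i, cc 4 (1 + i) = 4 := by
    intro i
    unfold cc
    rw [if_neg (by omega)]
  unfold lin
  rw [h0, Finset.sum_range_add, Finset.sum_range_add, Finset.sum_range_add, Finset.sum_range_one]
  have h1 : ∑ i ∈ Finset.range N, (cc 4 (1 + i) : ℝ) * y (1 + i) =
      4 * ∑ i ∈ Finset.range N, y (1 + i) := by
    rw [Finset.mul_sum]
    exact Finset.sum_congr rfl fun i _ => by rw [hc]; norm_num
  have h2 : ∑ i ∈ Finset.range N, (cc 4 (1 + N + i) : ℝ) * y (1 + N + i) =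
      4 * ∑ i ∈ Finset.range N, y (1 + N + i) := by
    rw [Finset.mul_sum]
    exact Finset.sum_congr rfl fun i _ => by rw [add_assoc, hc]; norm_num
  have h3 : ∑ i ∈ Finset.range F.length, (cc 4 (1 + N + N + i) : ℝ) * y (1 + N + N + i) =
      4 * ∑ i ∈ Finset.range F.length, y (1 + 2 * N + i) := by
    rw [Finset.mul_sum]
    refine Finset.sum_congr rfl fun i _ => ?_
    have e : 1 + N + N + i = 1 + (2 * N + i) := by ring
    have e' : 1 + 2 * N + i = 1 + (2 * N + i) := by ring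
    rw [e, e', hc]
    norm_num
  rw [h1, h2, h3]
  have h4 : cc 4 0 = 1 := rfl
  rw [h4]
  push_cast
  ring

theorem Y10_pos {σ : ℤ} (hσ : 0 < σ) {N : ℕ} {F : List (List (Bool × ℕ × ℕ))}
    (hb : ∀ v w : ℕ → ℝ, 0 ≤ bq ((σ : ℝ) ^ 2) N F v w) (y : ℕ → ℝ)
    (hy : ∀ i < nv N F, 0 < y i) : 0 < evR (mkH σ 4 N F).2 y := by
  have hσ' : (0 : ℝ) < σ := by exact_mod_cast hσ
  have hnv : nv N F = 1 + 2 * N + F.length := rfl
  rw [evR_mkH, Y10_lin, qua_eq]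
  have ht := trl_sq_le hb y
  obtain ⟨a0, a1⟩ := Y10_sq N (fun i => y (1 + i)) (fun i hi => hy _ (by omega))
  obtain ⟨b0, b1⟩ := Y10_sq N (fun i => y (1 + N + i)) (fun i hi => hy _ (by omega))
  obtain ⟨c0, c1⟩ := Y10_sq F.length (fun j => y (1 + 2 * N + j)) (fun i hi => hy _ (by omega))
  have hA : inn N (fun i => y (1 + i)) (fun i => y (1 + i)) =
      ∑ i ∈ Finset.range N, y (1 + i) ^ 2 := by
    unfold inn
    exact Finset.sum_congr rfl fun i _ => (sq _).symm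
  have hB : inn N (fun i => y (1 + N + i)) (fun i => y (1 + N + i)) =
      ∑ i ∈ Finset.range N, y (1 + N + i) ^ 2 := by
    unfold inn
    exact Finset.sum_congr rfl fun i _ => (sq _).symm
  rw [hA, hB] at ht ⊢
  have hA0 : 0 ≤ ∑ i ∈ Finset.range N, y (1 + i) ^ 2 := Finset.sum_nonneg fun i _ => sq_nonneg _
  have hB0 : 0 ≤ ∑ i ∈ Finset.range N, y (1 + N + i) ^ 2 :=
    Finset.sum_nonneg fun i _ => sq_nonneg _
  have hC0 : 0 ≤ ∑ j ∈ Finset.range F.length, y (1 + 2 * N + j) ^ 2 :=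
    Finset.sum_nonneg fun i _ => sq_nonneg _
  have hy0 : 0 < y 0 := hy 0 (by omega)
  generalize ∑ i ∈ Finset.range N, y (1 + i) ^ 2 = A at *
  generalize ∑ i ∈ Finset.range N, y (1 + N + i) ^ 2 = B at *
  generalize ∑ j ∈ Finset.range F.length, y (1 + 2 * N + j) ^ 2 = U at *
  generalize ∑ i ∈ Finset.range N, y (1 + i) = a at *
  generalize ∑ i ∈ Finset.range N, y (1 + N + i) = b at *
  generalize ∑ j ∈ Finset.range F.length, y (1 + 2 * N + j) = c at *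
  generalize trl N F y = T at *
  obtain ⟨t, htd⟩ : ∃ t, t = a + b + c := ⟨_, rfl⟩
  obtain ⟨r, hrd⟩ : ∃ r, r = y 0 + 4 * (a + b + c) := ⟨_, rfl⟩
  have ht0 : 0 ≤ t := by rw [htd]; positivity
  have hr : 4 * t < r := by rw [hrd, htd]; linarith
  have hr0 : 0 < r := by linarith
  have hq : A + B + 3 * U ≤ 3 * t ^ 2 := by
    rw [htd]
    nlinarith [mul_nonneg a0 b0, mul_nonneg a0 c0, mul_nonneg b0 c0, sq_nonneg a, sq_nonneg b]
  have hT : -(σ * t ^ 3) ≤ T := by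
    have h1 : A * B * U ≤ (t ^ 3) ^ 2 := by
      have h2 : A ≤ t ^ 2 := a1.trans (pow_le_pow_left₀ a0 (by rw [htd]; linarith) 2)
      have h3 : B ≤ t ^ 2 := b1.trans (pow_le_pow_left₀ b0 (by rw [htd]; linarith) 2)
      have h4 : U ≤ t ^ 2 := c1.trans (pow_le_pow_left₀ c0 (by rw [htd]; linarith) 2)
      calc A * B * U ≤ t ^ 2 * t ^ 2 * t ^ 2 :=
            mul_le_mul (mul_le_mul h2 h3 hB0 (by positivity)) h4 hC0 (by positivity)
        _ = (t ^ 3) ^ 2 := by ring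
    have h5 : T ^ 2 ≤ (σ * t ^ 3) ^ 2 := by
      calc T ^ 2 ≤ (σ : ℝ) ^ 2 * (A * B * U) := ht
        _ ≤ (σ : ℝ) ^ 2 * (t ^ 3) ^ 2 := mul_le_mul_of_nonneg_left h1 (by positivity)
        _ = _ := by ring
    exact (abs_le_of_sq_le_sq' h5 (by positivity)).1
  have hfin : 0 < r ^ 3 - 9 * r * t ^ 2 - 18 * t ^ 3 := by
    have k1 : 0 < r * (r ^ 2 - 16 * t ^ 2) := by
      apply mul_pos hr0
      nlinarith
    have k2 : 0 ≤ t ^ 2 * (r - 4 * t) := mul_nonneg (sq_nonneg _) (by linarith)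
    have k3 : 0 ≤ t ^ 3 := by positivity
    nlinarith
  rw [← hrd]
  have k4 : 3 * (σ : ℝ) * r * (A + B + 3 * U) ≤ 3 * (σ : ℝ) * r * (3 * t ^ 2) :=
    mul_le_mul_of_nonneg_left hq (by positivity)
  have k5 : 0 < (σ : ℝ) * (r ^ 3 - 9 * r * t ^ 2 - 18 * t ^ 3) := mul_pos hσ' hfin
  nlinarith

theorem pos_cone {σ : ℤ} (hσ : 0 < σ) {N : ℕ} {F : List (List (Bool × ℕ × ℕ))}
    (hb : ∀ v w : ℕ → ℝ, 0 ≤ bq ((σ : ℝ) ^ 2) N F v w) (x : ℕ → ℝ)
    (hx : ∀ i < nv N F, 0 < x i) (l : ℝ) (hl : 0 ≤ l) :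
    0 < evR (mkH σ 4 N F).2 (fun i => x i + l * if i = 0 then 1 else 0) := by
  apply Y10_pos hσ hb
  intro i hi
  have := hx i hi
  split_ifs
  · linarith
  · linarith

end Pool.Agent.NPC.H549HY
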