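import Pool.Agent.H549R2.HY.Defs

namespace Pool.Agent.NPC.H549HY

open Pool.Agent.H625R2 Pool.Agent.NPC.ER Pool.Agent.NPC.ER.Tens Pool.Agent.NPC.H670R2
open Pool.Agent.NPC.H549CV

theorem real_root {Q q : ℝ} (h : q ^ 2 ≤ Q ^ 3) {z : ℂ}
    (hz : z ^ 3 - 3 * (Q : ℂ) * z + 2 * (q : ℂ) = 0) : z.im = 0 := by
  by_contra hb
  obtain ⟨a, b⟩ := z
  simp only at hb
  have hre := congrArg Complex.re hz
  have him := congrArg Complex.im hz
  simp [pow_succ, Complex.mul_re, Complex.mul_im, Complex.sub_re, Complex.add_re] at hre him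
  have h1 : b * (3 * a ^ 2 - b ^ 2 - 3 * Q) = 0 := by linear_combination him
  have h2 : 3 * a ^ 2 - b ^ 2 - 3 * Q = 0 := by
    rcases mul_eq_zero.1 h1 with h | h
    · exact absurd h hb
    · exact h
  have h3 : a ^ 3 - 3 * a * b ^ 2 - 3 * Q * a + 2 * q = 0 := by linear_combination hre
  have h4 : q = 4 * a ^ 3 - 3 * Q * a := by
    linear_combination (1 / 2 : ℝ) * h3 - (3 / 2) * a * h2
  have h5 : q ^ 2 - Q ^ 3 = (a ^ 2 - Q) * (4 * a ^ 2 - Q) ^ 2 := by rw [h4]; ring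
  have h6 : a ^ 2 - Q = b ^ 2 / 3 := by linear_combination h2 / 3
  have hb2 : 0 < b ^ 2 := by positivity
  have h7 : 0 < a ^ 2 - Q := by rw [h6]; positivity
  have h8 : 0 < 4 * a ^ 2 - Q := by nlinarith [sq_nonneg a]
  have h9 : 0 < (a ^ 2 - Q) * (4 * a ^ 2 - Q) ^ 2 := by positivity
  linarith

theorem exists_nonreal {Q q : ℝ} (hQ : 0 ≤ Q) (h : Q ^ 3 < q ^ 2) :
    ∃ z : ℂ, 0 < z.im ∧ z ^ 3 - 3 * (Q : ℂ) * z + 2 * (q : ℂ) = 0 := by
  -- real number a with 4 a^3 - 3 Q a = q and a^2 > Q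
  have main : ∀ q : ℝ, 0 < q → Q ^ 3 < q ^ 2 → ∃ a : ℝ, 4 * a ^ 3 - 3 * Q * a = q ∧ Q < a ^ 2 := by
    intro q hq h
    set s := Real.sqrt Q with hs
    have hs0 : 0 ≤ s := Real.sqrt_nonneg _
    have hs2 : s ^ 2 = Q := Real.sq_sqrt hQ
    have hsq : s ^ 3 < q := by
      by_contra hcon
      push Not at hcon
      have : q ^ 2 ≤ (s ^ 3) ^ 2 := pow_le_pow_left₀ hq.le hcon 2
      have e : (s ^ 3) ^ 2 = Q ^ 3 := by rw [← hs2]; ring
      rw [e] at this
      linarith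
    have hcont : ContinuousOn (fun a : ℝ => 4 * a ^ 3 - 3 * Q * a) (Set.Icc s (s + q + 1)) := by
      fun_prop
    have hmem : q ∈ Set.Icc ((fun a : ℝ => 4 * a ^ 3 - 3 * Q * a) s)
        ((fun a : ℝ => 4 * a ^ 3 - 3 * Q * a) (s + q + 1)) := by
      constructor
      · show 4 * s ^ 3 - 3 * Q * s ≤ q
        rw [← hs2]
        nlinarith
      · show q ≤ 4 * (s + q + 1) ^ 3 - 3 * Q * (s + q + 1)
        rw [← hs2]
        have h1 : 1 ≤ s + q + 1 := by linarith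
        have h2 : 0 ≤ (s + q + 1) ^ 2 - s ^ 2 := by nlinarith
        have h3 : q ≤ (s + q + 1) ^ 3 := by
          have : (s + q + 1) ≤ (s + q + 1) ^ 3 := by nlinarith [mul_self_nonneg (s + q + 1)]
          linarith
        nlinarith [mul_nonneg (by linarith : (0:ℝ) ≤ s + q + 1) h2]
    obtain ⟨a, ha, hav⟩ := intermediate_value_Icc (by linarith) hcont hmem
    refine ⟨a, hav, ?_⟩
    have hav' : 4 * a ^ 3 - 3 * Q * a = q := hav
    rcases eq_or_lt_of_le ha.1 with h1 | h1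
    · exfalso
      rw [← h1, ← hs2] at hav'
      have : 4 * s ^ 3 - 3 * s ^ 2 * s = s ^ 3 := by ring
      linarith
    · nlinarith
  obtain ⟨a, ha, haQ⟩ : ∃ a : ℝ, 4 * a ^ 3 - 3 * Q * a = q ∧ Q < a ^ 2 := by
    rcases lt_trichotomy q 0 with hq | hq | hq
    · obtain ⟨a, h1, h2⟩ := main (-q) (by linarith) (by rw [neg_sq]; exact h)
      exact ⟨-a, by linear_combination -h1, by rw [neg_sq]; exact h2⟩
    · exfalso
      rw [hq] at h
      have : 0 ≤ Q ^ 3 := by positivity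
      norm_num at h
      linarith
    · exact main q hq h
  set b := Real.sqrt (3 * (a ^ 2 - Q)) with hb
  have hb2 : b ^ 2 = 3 * (a ^ 2 - Q) := Real.sq_sqrt (by linarith)
  have hb0 : 0 < b := Real.sqrt_pos.2 (by linarith)
  refine ⟨⟨a, b⟩, hb0, ?_⟩
  apply Complex.ext
  · simp [pow_succ, Complex.mul_re, Complex.mul_im]
    linear_combination 2 * ha * (-1) - 3 * a * hb2 
  · simp [pow_succ, Complex.mul_re, Complex.mul_im]
    linear_combination (-b) * hb2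

end Pool.Agent.NPC.H549HY
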