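import Pool.Agent.H549R2.HY.Defs

namespace Pool.Agent.NPC.H549HY

open Pool.Agent.H625R2 Pool.Agent.NPC.ER Pool.Agent.NPC.ER.Tens Pool.Agent.NPC.H670R2
open Pool.Agent.NPC.H549CV

theorem Y8_evR_nil {R : Type} [CommRing R] (x : ℕ → R) : evR [] x = 0 := by simp [evR]

theorem Y8_evR_cons {R : Type} [CommRing R] (t : ℤ × List ℕ) (p : QP) (x : ℕ → R) :
    evR (t :: p) x = (t.1 : R) * (t.2.map x).prod + evR p x := by simp [evR]

theorem Y8_d1_nil {R : Type} [CommRing R] (x y : ℕ → R) : d1 [] x y = 0 := by simp [d1]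

theorem Y8_d1_cons {R : Type} [CommRing R] (t : ℤ × List ℕ) (p : QP) (x y : ℕ → R) :
    d1 (t :: p) x y = (t.1 : R) * m1 t.2 x y + d1 p x y := by simp [d1]

theorem Y8_add {R : Type} [CommRing R] (p : QP) (h : ∀ t ∈ p, t.2.length = 3) (x y : ℕ → R)
    (s : R) : evR p (fun i => x i + s * y i) =
      evR p x + s * d1 p x y + s ^ 2 * d1 p y x + s ^ 3 * evR p y := by
  induction p with
  | nil => simp [Y8_evR_nil, Y8_d1_nil]
  | cons t p ih =>
    have h1 := ih fun t' ht' => h t' (List.mem_cons_of_mem _ ht')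
    obtain ⟨a, b, c, ht⟩ := List.length_eq_three.mp (h t (by simp))
    rw [Y8_evR_cons, Y8_evR_cons, Y8_evR_cons, Y8_d1_cons, Y8_d1_cons, h1, ht]
    simp only [m1, List.map_cons, List.map_nil, List.prod_cons, List.prod_nil,
      List.getD_cons_zero, List.getD_cons_succ]
    ring

theorem evR_add {R : Type} [CommRing R] {P : ℕ × QP} (h : IsCForm P) (x y : ℕ → R) (t : R) :
    evR P.2 (fun i => x i + t * y i) =
      evR P.2 x + t * d1 P.2 x y + t ^ 2 * d1 P.2 y x + t ^ 3 * evR P.2 y :=
  Y8_add P.2 (fun t ht => (h t ht).1) x y t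

theorem Y8_smul {R : Type} [CommRing R] (p : QP) (h : ∀ t ∈ p, t.2.length = 3) (x : ℕ → R)
    (s : R) : evR p (fun i => s * x i) = s ^ 3 * evR p x := by
  induction p with
  | nil => simp [Y8_evR_nil]
  | cons t p ih =>
    have h1 := ih fun t' ht' => h t' (List.mem_cons_of_mem _ ht')
    obtain ⟨a, b, c, ht⟩ := List.length_eq_three.mp (h t (by simp))
    rw [Y8_evR_cons, Y8_evR_cons, h1, ht]
    simp only [List.map_cons, List.map_nil, List.prod_cons, List.prod_nil]
    ring

theorem evR_smul {R : Type} [CommRing R] {P : ℕ × QP} (h : IsCForm P) (x : ℕ → R) (t : R) :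
    evR P.2 (fun i => t * x i) = t ^ 3 * evR P.2 x :=
  Y8_smul P.2 (fun t ht => (h t ht).1) x t

theorem evR_congr {R : Type} [CommRing R] {P : ℕ × QP} (h : IsCForm P) {x y : ℕ → R}
    (hxy : ∀ i < P.1, x i = y i) : evR P.2 x = evR P.2 y := by
  unfold evR
  congr 1
  refine List.map_congr_left fun t ht => ?_
  congr 2
  exact List.map_congr_left fun i hi => hxy i ((h t ht).2 i hi)

theorem Y8_prod (l : List ℕ) (x : ℕ → ℝ) :
    (l.map fun i => ((x i : ℝ) : ℂ)).prod = (((l.map x).prod : ℝ) : ℂ) := by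
  induction l with
  | nil => simp
  | cons a l ih =>
    rw [List.map_cons, List.prod_cons, ih, List.map_cons, List.prod_cons]
    push_cast
    rfl

theorem evR_ofReal (p : QP) (x : ℕ → ℝ) :
    evR p (fun i => ((x i : ℝ) : ℂ)) = ((evR p x : ℝ) : ℂ) := by
  induction p with
  | nil => simp [Y8_evR_nil]
  | cons t p ih =>
    rw [Y8_evR_cons, Y8_evR_cons, ih, Y8_prod]
    push_cast
    rfl

theorem d1_ofReal (p : QP) (x y : ℕ → ℝ) :
    d1 p (fun i => ((x i : ℝ) : ℂ)) (fun i => ((y i : ℝ) : ℂ)) = ((d1 p x y : ℝ) : ℂ) := by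
  induction p with
  | nil => simp [Y8_d1_nil]
  | cons t p ih =>
    rw [Y8_d1_cons, Y8_d1_cons, ih]
    simp only [m1]
    push_cast
    rfl

theorem Y8_cont_prod (l : List ℕ) {x : ℝ → ℕ → ℂ} (hx : ∀ i, Continuous fun r => x r i) :
    Continuous fun r => (l.map (x r)).prod := by
  induction l with
  | nil => simpa using continuous_const
  | cons a l ih =>
    simp only [List.map_cons, List.prod_cons]
    exact (hx a).mul ih

theorem continuous_evR (p : QP) {x : ℝ → ℕ → ℂ} (hx : ∀ i, Continuous fun r => x r i) :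
    Continuous fun r => evR p (x r) := by
  induction p with
  | nil => simpa [Y8_evR_nil] using continuous_const
  | cons t p ih =>
    simp only [Y8_evR_cons]
    exact (continuous_const.mul (Y8_cont_prod t.2 hx)).add ih

theorem continuous_d1 (p : QP) {x y : ℝ → ℕ → ℂ} (hx : ∀ i, Continuous fun r => x r i)
    (hy : ∀ i, Continuous fun r => y r i) : Continuous fun r => d1 p (x r) (y r) := by
  induction p with
  | nil => simpa [Y8_d1_nil] using continuous_const
  | cons t p ih =>
    simp only [Y8_d1_cons, m1]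
    refine (continuous_const.mul ?_).add ih
    exact ((((hy _).mul (hx _)).mul (hx _)).add (((hx _).mul (hy _)).mul (hx _))).add
      (((hx _).mul (hx _)).mul (hy _))

end Pool.Agent.NPC.H549HY
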