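import Pool.Agent.H549R2.HY.Y7
import Pool.Agent.H549R2.HY.Y8

namespace Pool.Agent.NPC.H549HY

open Pool.Agent.H625R2 Pool.Agent.NPC.ER Pool.Agent.NPC.ER.Tens Pool.Agent.NPC.H670R2
open Pool.Agent.NPC.H549CV

theorem Y9_hyp {P : ℕ × QP} (h : IsCForm P) {e : ℕ → ℝ} (hyp : HypW P e) (x : ℕ → ℝ) (z : ℂ)
    (h0 : evR P.2 (fun i => ((x i : ℝ) : ℂ) + z * ((e i : ℝ) : ℂ)) = 0) : z.im = 0 := by
  refine hyp.2 (fun i => x i) z ?_
  rw [← h0]
  refine evR_congr h fun i hi => ?_
  simp [extR, hi]

theorem garding {P : ℕ × QP} (h : IsCForm P) {e : ℕ → ℝ} (hyp : HypW P e) (a : ℕ → ℝ)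
    (ha : ∀ l : ℝ, 0 ≤ l → evR P.2 (fun i => a i + l * e i) ≠ 0) (x : ℕ → ℝ) :
    evR P.2 (fun i => ((x i : ℝ) : ℂ) + Complex.I * ((a i : ℝ) : ℂ)) ≠ 0 := by
  have hc : evR P.2 (fun i => ((a i : ℝ) : ℂ)) ≠ 0 := by
    rw [evR_ofReal]
    have := ha 0 le_rfl
    simpa using this
  have he : evR P.2 (fun i => ((e i : ℝ) : ℂ)) ≠ 0 := by
    rw [evR_ofReal]
    exact Complex.ofReal_ne_zero.mpr hyp.1
  set Y : ℝ → ℕ → ℂ := fun r i => ((1 - r : ℝ) : ℂ) * ((x i : ℝ) : ℂ) +
    Complex.I * (r : ℂ) * ((e i : ℝ) : ℂ) with hY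
  have hYc : ∀ i, Continuous fun r => Y r i := by
    intro i
    simp only [hY]
    have c1 : Continuous fun r : ℝ => ((1 - r : ℝ) : ℂ) :=
      Complex.continuous_ofReal.comp (continuous_const.sub continuous_id)
    have c2 : Continuous fun r : ℝ => (r : ℂ) := Complex.continuous_ofReal
    exact (c1.mul continuous_const).add ((continuous_const.mul c2).mul continuous_const)
  have hG : ∀ (r : ℝ) (t : ℂ), evR P.2 (fun i => ((a i : ℝ) : ℂ)) * t ^ 3 +
      d1 P.2 (fun i => ((a i : ℝ) : ℂ)) (Y r) * t ^ 2 +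
      d1 P.2 (Y r) (fun i => ((a i : ℝ) : ℂ)) * t + evR P.2 (Y r) =
      evR P.2 (fun i => Y r i + t * ((a i : ℝ) : ℂ)) := by
    intro r t
    rw [evR_add h (Y r) (fun i => ((a i : ℝ) : ℂ)) t]
    ring
  have key := homotopy hc
    (α := fun r => d1 P.2 (fun i => ((a i : ℝ) : ℂ)) (Y r))
    (β := fun r => d1 P.2 (Y r) (fun i => ((a i : ℝ) : ℂ)))
    (γ := fun r => evR P.2 (Y r))
    (continuous_d1 P.2 (fun i => continuous_const) hYc)
    (continuous_d1 P.2 hYc (fun i => continuous_const))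
    (continuous_evR P.2 hYc) ?_ ?_ Complex.I (by simp)
  · simp only [hG] at key
    intro h0
    apply key
    rw [← h0]
    congr 1
    funext i
    simp [hY]
  · intro r hr0 hr1 t ht h0
    simp only [hG] at h0
    have h1 := Y9_hyp h hyp (fun i => (1 - r) * x i + t.re * a i) (Complex.I * (r : ℂ)) (by
      rw [← h0]
      congr 1
      funext i
      have : t = ((t.re : ℝ) : ℂ) := Complex.ext (by simp) (by simp [ht])
      rw [hY]
      simp only
      conv_rhs => rw [this]
      push_cast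
      ring)
    simp at h1
    exact hr0.ne' h1
  · intro t ht h0
    simp only [hG] at h0
    by_cases ht0 : t = 0
    · subst ht0
      have h1 : (fun i => Y 1 i + (0 : ℂ) * ((a i : ℝ) : ℂ)) =
          fun i => Complex.I * ((e i : ℝ) : ℂ) := by
        funext i
        simp [hY]
      rw [h1, evR_smul h] at h0
      exact (mul_ne_zero (pow_ne_zero _ Complex.I_ne_zero) he) h0
    · have h1 : (fun i => Y 1 i + t * ((a i : ℝ) : ℂ)) =
          fun i => t * (((a i : ℝ) : ℂ) + (Complex.I / t) * ((e i : ℝ) : ℂ)) := by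
        funext i
        simp only [hY]
        push_cast
        field_simp
        ring
      rw [h1, evR_smul h] at h0
      have h2 : evR P.2 (fun i => ((a i : ℝ) : ℂ) + (Complex.I / t) * ((e i : ℝ) : ℂ)) = 0 := by
        rcases mul_eq_zero.mp h0 with h3 | h3
        · exact absurd h3 (pow_ne_zero _ ht0)
        · exact h3
      have h3 := Y9_hyp h hyp a (Complex.I / t) h2
      have h4 : Complex.I / t = (((Complex.I / t).re : ℝ) : ℂ) :=
        Complex.ext (by simp) (by rw [h3]; simp)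
      set l : ℝ := (Complex.I / t).re with hl
      rw [h4] at h2
      have h5 : evR P.2 (fun i => a i + l * e i) = 0 := by
        have h6 : (fun i => ((a i : ℝ) : ℂ) + (l : ℂ) * ((e i : ℝ) : ℂ)) =
            fun i => (((a i + l * e i : ℝ)) : ℂ) := by
          funext i
          push_cast
          ring
        rw [h6, evR_ofReal] at h2
        exact_mod_cast h2
      have h7 : l < 0 := by
        by_contra hcon
        exact ha l (not_lt.mp hcon) h5
      have h8 : Complex.I = (l : ℂ) * t := by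
        rw [← h4]
        field_simp
      have h9 := congrArg Complex.im h8
      simp only [Complex.I_im, Complex.mul_im, Complex.ofReal_re, Complex.ofReal_im, zero_mul,
        add_zero] at h9
      nlinarith

end Pool.Agent.NPC.H549HY
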