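import Pool.Agent.H549R2.HY.Y1
import Pool.Agent.H549R2.HY.Y3
import Pool.Agent.H549R2.HY.Y4
import Pool.Agent.H549R2.HY.Y9
import Pool.Agent.H549R2.HY.Y10

namespace Pool.Agent.NPC.H549HY

open Pool.Agent.H625R2 Pool.Agent.NPC.ER Pool.Agent.NPC.ER.Tens Pool.Agent.NPC.H670R2
open Pool.Agent.NPC.H549CV

theorem y11_nv_pos (N : ℕ) (F : List (List (Bool × ℕ × ℕ))) : 0 < nv N F := by
  unfold nv
  omega

theorem y11_lin_e {R : Type} [CommRing R] (κ : ℤ) (M : ℕ) (hM : 0 < M) :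
    lin κ M (fun i => if i = 0 then (1 : R) else 0) = 1 := by
  unfold lin
  rw [Finset.sum_eq_single_of_mem 0 (Finset.mem_range.2 hM)]
  · simp [cc]
  · intro b _ hb
    simp [hb]

theorem y11_qua_e {R : Type} [CommRing R] (N M : ℕ) :
    qua N M (fun i => if i = 0 then (1 : R) else 0) = 0 := by
  unfold qua
  refine Finset.sum_eq_zero fun i _ => ?_
  by_cases hi : i = 0
  · subst hi
    simp [dd]
  · simp [hi]

theorem y11_trl_e {R : Type} [CommRing R] (N : ℕ) (F : List (List (Bool × ℕ × ℕ))) :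
    trl N F (fun i => if i = 0 then (1 : R) else 0) = 0 := by
  unfold trl
  refine Finset.sum_eq_zero fun j _ => ?_
  have h0 : (fun i => if i = 0 then (1 : R) else 0) (1 + 2 * N + j) = 0 :=
    if_neg (by omega)
  rw [h0, zero_mul]

/-- the point `x + z e₀` -/
noncomputable def y11_pt (x : ℕ → ℝ) (z : ℂ) (i : ℕ) : ℂ :=
  ((x i : ℝ) : ℂ) + z * (((if i = 0 then (1 : ℝ) else 0 : ℝ)) : ℂ)

theorem y11_pt_ne (x : ℕ → ℝ) (z : ℂ) {i : ℕ} (hi : i ≠ 0) : y11_pt x z i = ((x i : ℝ) : ℂ) := by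
  unfold y11_pt
  simp [hi]

theorem y11_lin (κ : ℤ) (M : ℕ) (hM : 0 < M) (x : ℕ → ℝ) (z : ℂ) :
    lin κ M (y11_pt x z) = ((lin κ M x : ℝ) : ℂ) + z := by
  have h1 : lin κ M (y11_pt x z) = ((lin κ M x : ℝ) : ℂ) +
      z * lin κ M (fun i => if i = 0 then (1 : ℂ) else 0) := by
    unfold lin y11_pt
    push_cast
    rw [Finset.mul_sum, ← Finset.sum_add_distrib]
    refine Finset.sum_congr rfl fun k _ => ?_
    split_ifs
    · push_cast
      ring
    · push_cast
      ring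
  rw [h1, y11_lin_e κ M hM, mul_one]

theorem y11_qua (N M : ℕ) (x : ℕ → ℝ) (z : ℂ) :
    qua N M (y11_pt x z) = ((qua N M x : ℝ) : ℂ) := by
  unfold qua
  push_cast
  refine Finset.sum_congr rfl fun i _ => ?_
  by_cases hi : i = 0
  · subst hi
    simp [dd]
  · rw [y11_pt_ne x z hi]

theorem y11_trl (N : ℕ) (F : List (List (Bool × ℕ × ℕ))) (x : ℕ → ℝ) (z : ℂ) :
    trl N F (y11_pt x z) = ((trl N F x : ℝ) : ℂ) := by
  unfold trl
  rw [Complex.ofReal_sum]
  refine Finset.sum_congr rfl fun j _ => ?_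
  rw [Complex.ofReal_mul, y11_pt_ne x z (show 1 + 2 * N + j ≠ 0 by omega)]
  congr 1
  generalize F.getD j [] = l
  induction l with
  | nil => simp
  | cons b l ih =>
    rw [List.map_cons, List.map_cons, List.sum_cons, List.sum_cons, Complex.ofReal_add, ih,
      y11_pt_ne x z (show 1 + b.2.1 ≠ 0 by omega),
      y11_pt_ne x z (show 1 + N + b.2.2 ≠ 0 by omega)]
    push_cast
    rfl

theorem y11_red (S : List Con) (h : ¬ Sat S) :
    0 < redS S ∧ ∀ v w : ℕ → ℝ, 0 ≤ bq ((redS S : ℝ) ^ 2) (redN S) (redF S) v w := by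
  refine ⟨?_, fun v w => ?_⟩
  · unfold redS
    positivity
  · by_contra hcon
    apply h
    rw [sat_iff]
    refine ⟨v, w, ?_⟩
    have e : (redC S : ℝ) = (redS S : ℝ) ^ 2 := by
      unfold redC redS
      push_cast
      ring
    rw [e]
    exact not_le.1 hcon

theorem unsat_hyp (κ : ℤ) (S : List Con) (h : ¬ Sat S) : Hyp (redH κ S) := by
  obtain ⟨hσ, hb⟩ := y11_red S h
  have hσR : (0 : ℝ) < (redS S : ℝ) := by exact_mod_cast hσ
  have hσC : ((redS S : ℤ) : ℂ) ≠ 0 := by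
    have : redS S ≠ 0 := hσ.ne'
    exact_mod_cast this
  refine ⟨?_, ?_⟩
  · show evR (mkH (redS S) κ (redN S) (redF S)).2 _ ≠ 0
    rw [evR_mkH, y11_lin_e κ _ (y11_nv_pos _ _), y11_qua_e, y11_trl_e]
    simp only [one_pow, mul_one, mul_zero, sub_zero, add_zero]
    exact hσR.ne'
  · intro x z hz
    have hz' : evR (mkH (redS S) κ (redN S) (redF S)).2 (y11_pt (extR x) z) = 0 := hz
    rw [evR_mkH, y11_lin κ _ (y11_nv_pos _ _), y11_qua, y11_trl] at hz'
    set M := nv (redN S) (redF S) with hM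
    set lx : ℝ := lin κ M (extR x) with hlx
    set Q : ℝ := qua (redN S) M (extR x) with hQ
    set T : ℝ := trl (redN S) (redF S) (extR x) with hT
    have hle : 81 * T ^ 2 ≤ (redS S : ℝ) ^ 2 * Q ^ 3 := unsat_le hb (extR x)
    set q : ℝ := 9 * T / (redS S : ℝ) with hq
    have h1 : q ^ 2 ≤ Q ^ 3 := by
      have h9 : q * (redS S : ℝ) = 9 * T := by
        rw [hq]
        exact div_mul_cancel₀ _ hσR.ne'
      have h10 : (q * (redS S : ℝ)) ^ 2 ≤ (redS S : ℝ) ^ 2 * Q ^ 3 := by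
        rw [h9, mul_pow]
        norm_num
        exact hle
      have h11 : (redS S : ℝ) ^ 2 * q ^ 2 ≤ (redS S : ℝ) ^ 2 * Q ^ 3 := by
        rw [mul_pow, mul_comm] at h10
        exact h10
      exact le_of_mul_le_mul_left h11 (pow_pos hσR 2)
    have h2 : ((lx : ℂ) + z) ^ 3 - 3 * (Q : ℂ) * ((lx : ℂ) + z) + 2 * (q : ℂ) = 0 := by
      have h3 : (q : ℂ) * ((redS S : ℤ) : ℂ) = 9 * (T : ℂ) := by
        have h4 : q * (redS S : ℝ) = 9 * T := by
          rw [hq]
          field_simp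
        have h5 := congrArg (fun r : ℝ => (r : ℂ)) h4
        push_cast at h5
        exact h5
      have h6 : ((redS S : ℤ) : ℂ) *
          (((lx : ℂ) + z) ^ 3 - 3 * (Q : ℂ) * ((lx : ℂ) + z) + 2 * (q : ℂ)) = 0 := by
        linear_combination hz' + 2 * h3
      rcases mul_eq_zero.1 h6 with h7 | h7
      · exact absurd h7 hσC
      · exact h7
    have h3 := real_root h1 h2
    simpa using h3

theorem unsat_stab (S : List Con) (h : ¬ Sat S) : Stab (redH 4 S) := by
  obtain ⟨hσ, hb⟩ := y11_red S h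
  intro z hz
  have h1 := garding (P := redH 4 S) (isCForm_mkH (redS S) 4 (redF_idx S)) (unsat_hyp 4 S h)
    (fun i => (extR z i).im) (fun l hl => (pos_cone hσ hb (fun i => (extR z i).im) (by
      intro i hi
      have hi' : i < (redH 4 S).1 := hi
      show 0 < (extR z i).im
      unfold extR
      rw [dif_pos hi']
      exact hz _) l hl).ne') (fun i => (extR z i).re)
  have h2 : (fun i => (((extR z i).re : ℝ) : ℂ) + Complex.I * (((extR z i).im : ℝ) : ℂ)) =
      extR z := by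
    funext i
    rw [mul_comm, Complex.re_add_im]
  rw [h2] at h1
  exact h1

end Pool.Agent.NPC.H549HY
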