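import Pool.Agent.H549R2.HY.Y4

namespace Pool.Agent.NPC.H549HY

open Pool.Agent.H625R2 Pool.Agent.NPC.ER Pool.Agent.NPC.ER.Tens Pool.Agent.NPC.H670R2
open Pool.Agent.NPC.H549CV

theorem Y5_SS_zero {N : ℕ} {F : List (List (Bool × ℕ × ℕ))}
    (hF : ∀ b ∈ F, ∀ m ∈ b, m.2.1 < N ∧ m.2.2 < N) (v w : ℕ → ℝ)
    (h : (∀ i < N, v i = 0) ∨ (∀ i < N, w i = 0)) : SS F v w = 0 := by
  unfold SS
  apply List.sum_eq_zero
  intro y hy
  obtain ⟨b, hb, rfl⟩ := List.mem_map.mp hy
  have : bval b v w = 0 := by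
    unfold bval
    apply List.sum_eq_zero
    intro z hz
    obtain ⟨m, hm, rfl⟩ := List.mem_map.mp hz
    rcases h with h | h
    · rw [h _ (hF b hb m hm).1]; ring
    · rw [h _ (hF b hb m hm).2]; ring
  rw [this]
  ring

theorem Y5_zero {N : ℕ} (v : ℕ → ℝ) (h : inn N v v = 0) : ∀ i < N, v i = 0 := by
  intro i hi
  have h1 := sq_le_inn v hi
  rw [h] at h1
  exact pow_eq_zero_iff (two_ne_zero) |>.mp (le_antisymm h1 (sq_nonneg _))

theorem Y5_bval {N : ℕ} {F : List (List (Bool × ℕ × ℕ))}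
    (hF : ∀ b ∈ F, ∀ m ∈ b, m.2.1 < N ∧ m.2.2 < N) (v w x : ℕ → ℝ)
    (h1 : ∀ i < N, x (1 + i) = v i) (h2 : ∀ i < N, x (1 + N + i) = w i)
    (b : List (Bool × ℕ × ℕ)) (hb : b ∈ F) :
    (b.map fun b => (sgnZ b.1 : ℝ) * (x (1 + b.2.1) * x (1 + N + b.2.2))).sum = bval b v w := by
  unfold bval
  congr 1
  apply List.map_congr_left
  intro m hm
  rw [h1 _ (hF b hb m hm).1, h2 _ (hF b hb m hm).2]
  congr 1
  unfold sgnZ sgn
  split_ifs <;> simp

theorem sat_lt {σ : ℝ} {N : ℕ} {F : List (List (Bool × ℕ × ℕ))}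
    (hF : ∀ b ∈ F, ∀ m ∈ b, m.2.1 < N ∧ m.2.2 < N) (hb : ∃ v w : ℕ → ℝ, bq (σ ^ 2) N F v w < 0) :
    ∃ x : ℕ → ℝ, σ ^ 2 * qua N (nv N F) x ^ 3 < 81 * trl N F x ^ 2 := by
  obtain ⟨v, w₀, hvw⟩ := hb
  unfold bq at hvw
  have hA0 := inn_nonneg N v
  have hB0 := inn_nonneg N w₀
  have hAne : inn N v v ≠ 0 := by
    intro h0
    rw [Y5_SS_zero hF v w₀ (Or.inl (Y5_zero v h0)), h0] at hvw
    simp at hvw
  have hBne : inn N w₀ w₀ ≠ 0 := by
    intro h0
    rw [Y5_SS_zero hF v w₀ (Or.inr (Y5_zero w₀ h0)), h0] at hvw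
    simp at hvw
  set A := inn N v v with hA
  set B := inn N w₀ w₀ with hB
  have hApos : 0 < A := lt_of_le_of_ne hA0 (Ne.symm hAne)
  have hBpos : 0 < B := lt_of_le_of_ne hB0 (Ne.symm hBne)
  set s : ℝ := √(A / B) with hs
  have hs2 : s ^ 2 = A / B := Real.sq_sqrt (by positivity)
  set w : ℕ → ℝ := fun i => s * w₀ i with hw
  have hww : inn N w w = A := by
    have : inn N w w = s ^ 2 * B := by
      rw [hB]
      unfold inn
      rw [Finset.mul_sum]
      refine Finset.sum_congr rfl fun i _ => ?_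
      simp only [hw]
      ring
    rw [this, hs2]
    field_simp
  have hSSw : SS F v w = s ^ 2 * SS F v w₀ := by
    unfold SS
    rw [← List.sum_map_mul_left]
    congr 1
    apply List.map_congr_left
    intro b _
    have : bval b v w = s * bval b v w₀ := by
      unfold bval
      rw [← List.sum_map_mul_left]
      congr 1
      apply List.map_congr_left
      intro m _
      simp only [hw]
      ring
    rw [this]
    ring
  set S := SS F v w with hS
  have hSlt : σ ^ 2 * A ^ 2 < S := by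
    rw [hSSw, hs2]
    have h1 : σ ^ 2 * (A * B) < SS F v w₀ := by linarith
    have h2 : A / B * (σ ^ 2 * (A * B)) < A / B * SS F v w₀ :=
      mul_lt_mul_of_pos_left h1 (by positivity)
    have h3 : A / B * (σ ^ 2 * (A * B)) = σ ^ 2 * A ^ 2 := by
      field_simp
    linarith
  have hSpos : 0 < S := lt_of_le_of_lt (by positivity) hSlt
  set t : ℝ := √(A / (3 * S)) with ht
  have ht2 : t ^ 2 = A / (3 * S) := Real.sq_sqrt (by positivity)
  have ht3 : t ^ 2 * S = A / 3 := by
    rw [ht2]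
    field_simp
  set x : ℕ → ℝ := fun i => if i = 0 then 0 else if i < 1 + N then v (i - 1) else
    if i < 1 + 2 * N then w (i - 1 - N) else t * bval (F.getD (i - 1 - 2 * N) []) v w with hx
  have hx1 : ∀ i < N, x (1 + i) = v i := by
    intro i hi
    simp only [hx]
    rw [if_neg (by omega), if_pos (by omega)]
    congr 1
    omega
  have hx2 : ∀ i < N, x (1 + N + i) = w i := by
    intro i hi
    simp only [hx]
    rw [if_neg (by omega), if_neg (by omega), if_pos (by omega)]
    congr 1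
    omega
  have hx3 : ∀ j, x (1 + 2 * N + j) = t * bval (F.getD j []) v w := by
    intro j
    simp only [hx]
    rw [if_neg (by omega), if_neg (by omega), if_neg (by omega)]
    rw [show 1 + 2 * N + j - 1 - 2 * N = j by omega]
  have hsum : ∑ j ∈ Finset.range F.length, bval (F.getD j []) v w ^ 2 = S := by
    rw [hS, ← sum_getD (le_refl F.length) v w]
    exact Finset.sum_range (fun k => bval (F.getD k []) v w ^ 2)
  refine ⟨x, ?_⟩
  have hqua : qua N (nv N F) x = 3 * A := by
    rw [qua_eq]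
    have e1 : inn N (fun i => x (1 + i)) (fun i => x (1 + i)) = A := by
      rw [hA]
      unfold inn
      exact Finset.sum_congr rfl fun i hi => by
        change x (1 + i) * x (1 + i) = v i * v i
        rw [hx1 i (Finset.mem_range.mp hi)]
    have e2 : inn N (fun i => x (1 + N + i)) (fun i => x (1 + N + i)) = A := by
      rw [← hww]
      unfold inn
      exact Finset.sum_congr rfl fun i hi => by
        change x (1 + N + i) * x (1 + N + i) = w i * w i
        rw [hx2 i (Finset.mem_range.mp hi)]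
    have e3 : ∑ j ∈ Finset.range F.length, x (1 + 2 * N + j) ^ 2 = t ^ 2 * S := by
      rw [← hsum, Finset.mul_sum]
      exact Finset.sum_congr rfl fun j _ => by rw [hx3 j]; ring
    rw [e1, e2, e3, ht3]
    ring
  have htrl : trl N F x = t * S := by
    unfold trl
    rw [← hsum, Finset.mul_sum]
    refine Finset.sum_congr rfl fun j hj => ?_
    have hj' := Finset.mem_range.mp hj
    have hmem : F.getD j [] ∈ F := by
      rw [List.getD_eq_getElem _ _ hj']
      exact List.getElem_mem hj'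
    rw [hx3 j, Y5_bval hF v w x hx1 hx2 _ hmem]
    ring
  rw [hqua, htrl]
  have h81 : 81 * (t * S) ^ 2 = 27 * A * S := by
    have : (t * S) ^ 2 = t ^ 2 * S * S := by ring
    rw [this, ht3]
    ring
  rw [h81]
  have : σ ^ 2 * (3 * A) ^ 3 = 27 * A * (σ ^ 2 * A ^ 2) := by ring
  rw [this]
  exact mul_lt_mul_of_pos_left hSlt (by positivity)

end Pool.Agent.NPC.H549HY
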