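import Pool.Agent.H549R2.HY.Defs

namespace Pool.Agent.NPC.H549HY

open Pool.Agent.H625R2 Pool.Agent.NPC.ER Pool.Agent.NPC.ER.Tens Pool.Agent.NPC.H670R2
open Pool.Agent.NPC.H549CV

theorem near_root {c : ℂ} (hc : c ≠ 0) (α β γ τ : ℂ) : ∃ r : ℂ,
    c * r ^ 3 + α * r ^ 2 + β * r + γ = 0 ∧
      ‖c‖ * ‖τ - r‖ ^ 3 ≤ ‖c * τ ^ 3 + α * τ ^ 2 + β * τ + γ‖ := by
  -- first root
  obtain ⟨r1, h1⟩ : ∃ r1 : ℂ, c * r1 ^ 3 + α * r1 ^ 2 + β * r1 + γ = 0 := by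
    have hd : (Polynomial.C c * Polynomial.X ^ 3 + Polynomial.C α * Polynomial.X ^ 2 +
        Polynomial.C β * Polynomial.X + Polynomial.C γ : Polynomial ℂ).degree = 3 :=
      Polynomial.degree_cubic hc
    obtain ⟨r1, h1⟩ := IsAlgClosed.exists_root _ (by rw [hd]; decide)
    refine ⟨r1, ?_⟩
    simpa [Polynomial.IsRoot] using h1
  -- second root
  set a1 := α + c * r1 with ha1
  set b1 := β + α * r1 + c * r1 ^ 2 with hb1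
  obtain ⟨r2, h2⟩ : ∃ r2 : ℂ, c * r2 ^ 2 + a1 * r2 + b1 = 0 := by
    have hd : (Polynomial.C c * Polynomial.X ^ 2 + Polynomial.C a1 * Polynomial.X +
        Polynomial.C b1 : Polynomial ℂ).degree = 2 := Polynomial.degree_quadratic hc
    obtain ⟨r2, h2⟩ := IsAlgClosed.exists_root _ (by rw [hd]; decide)
    refine ⟨r2, ?_⟩
    simpa [Polynomial.IsRoot] using h2
  obtain ⟨r3, h3⟩ : ∃ r3 : ℂ, c * r3 = -(a1 + c * r2) := ⟨-(a1 + c * r2) / c, by field_simp⟩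
  have hfac : ∀ t : ℂ, c * t ^ 3 + α * t ^ 2 + β * t + γ = c * (t - r1) * (t - r2) * (t - r3) := by
    intro t
    have e1 : c * t ^ 3 + α * t ^ 2 + β * t + γ = (t - r1) * (c * t ^ 2 + a1 * t + b1) := by
      rw [ha1, hb1]
      linear_combination h1
    have e2 : c * t ^ 2 + a1 * t + b1 = (t - r2) * (c * t + (a1 + c * r2)) := by
      linear_combination h2
    rw [e1, e2]
    linear_combination (t - r1) * (t - r2) * h3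
  have hn : ‖c * τ ^ 3 + α * τ ^ 2 + β * τ + γ‖ = ‖c‖ * ‖τ - r1‖ * ‖τ - r2‖ * ‖τ - r3‖ := by
    rw [hfac τ, norm_mul, norm_mul, norm_mul]
  have key : ∀ r, (r = r1 ∨ r = r2 ∨ r = r3) → ‖τ - r‖ ≤ ‖τ - r1‖ → ‖τ - r‖ ≤ ‖τ - r2‖ →
      ‖τ - r‖ ≤ ‖τ - r3‖ → ∃ r : ℂ, c * r ^ 3 + α * r ^ 2 + β * r + γ = 0 ∧
      ‖c‖ * ‖τ - r‖ ^ 3 ≤ ‖c * τ ^ 3 + α * τ ^ 2 + β * τ + γ‖ := by
    intro r hr k1 k2 k3
    refine ⟨r, ?_, ?_⟩
    · rw [hfac r]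
      rcases hr with h | h | h <;> rw [h] <;> ring
    · rw [hn]
      calc ‖c‖ * ‖τ - r‖ ^ 3 = ‖c‖ * ‖τ - r‖ * ‖τ - r‖ * ‖τ - r‖ := by ring
        _ ≤ ‖c‖ * ‖τ - r1‖ * ‖τ - r2‖ * ‖τ - r3‖ := by gcongr
  rcases le_total ‖τ - r1‖ ‖τ - r2‖ with h12 | h12
  · rcases le_total ‖τ - r1‖ ‖τ - r3‖ with h13 | h13
    · exact key r1 (Or.inl rfl) le_rfl h12 h13
    · exact key r3 (Or.inr (Or.inr rfl)) h13 (h13.trans h12) le_rfl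
  · rcases le_total ‖τ - r2‖ ‖τ - r3‖ with h13 | h13
    · exact key r2 (Or.inr (Or.inl rfl)) h12 le_rfl h13
    · exact key r3 (Or.inr (Or.inr rfl)) (h13.trans h12) h13 le_rfl

end Pool.Agent.NPC.H549HY
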