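import Pool.Agent.H549R2.HY.Y1
import Pool.Agent.H549R2.HY.Y3
import Pool.Agent.H549R2.HY.Y5
import Pool.Agent.H549R2.HY.Y6
import Pool.Agent.H549R2.HY.Y8

namespace Pool.Agent.NPC.H549HY

open Pool.Agent.H625R2 Pool.Agent.NPC.ER Pool.Agent.NPC.ER.Tens Pool.Agent.NPC.H670R2
open Pool.Agent.NPC.H549CV

/-- the first unit vector -/
noncomputable def Y12_e (i : ℕ) : ℝ := if i = 0 then 1 else 0

/-- the point `x + z e₀` -/
noncomputable def Y12_X (x : ℕ → ℝ) (z : ℂ) (i : ℕ) : ℂ := ((x i : ℝ) : ℂ) + z * ((Y12_e i : ℝ) : ℂ)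

theorem Y12_X_pos (x : ℕ → ℝ) (z : ℂ) {i : ℕ} (hi : i ≠ 0) : Y12_X x z i = ((x i : ℝ) : ℂ) := by
  simp [Y12_X, Y12_e, hi]

theorem Y12_X_zero (x : ℕ → ℝ) (z : ℂ) : Y12_X x z 0 = ((x 0 : ℝ) : ℂ) + z := by
  simp [Y12_X, Y12_e]

theorem Y12_lin (κ : ℤ) (m : ℕ) (x : ℕ → ℝ) (z : ℂ) :
    lin κ (m + 1) (Y12_X x z) = ((lin κ (m + 1) x : ℝ) : ℂ) + z := by
  unfold lin
  rw [Finset.sum_range_succ', Finset.sum_range_succ']
  rw [Y12_X_zero]
  push_cast
  have : ∀ k, Y12_X x z (k + 1) = ((x (k + 1) : ℝ) : ℂ) := fun k => Y12_X_pos x z (Nat.succ_ne_zero k)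
  simp only [this]
  have h0 : cc κ 0 = 1 := by simp [cc]
  rw [h0]
  push_cast
  ring

theorem Y12_qua (N M : ℕ) (x : ℕ → ℝ) (z : ℂ) :
    qua N M (Y12_X x z) = ((qua N M x : ℝ) : ℂ) := by
  unfold qua
  push_cast
  refine Finset.sum_congr rfl fun i _ => ?_
  by_cases hi : i = 0
  · subst hi
    have h0 : dd N 0 = 0 := by simp [dd]
    rw [h0]; simp
  · rw [Y12_X_pos x z hi]

theorem Y12_trl (N : ℕ) (F : List (List (Bool × ℕ × ℕ))) (x : ℕ → ℝ) (z : ℂ) :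
    trl N F (Y12_X x z) = ((trl N F x : ℝ) : ℂ) := by
  unfold trl
  push_cast
  refine Finset.sum_congr rfl fun j _ => ?_
  rw [Y12_X_pos x z (by omega)]
  congr 1
  induction (F.getD j []) with
  | nil => simp
  | cons b l ih =>
    simp only [List.map_cons, List.sum_cons]
    rw [ih, Y12_X_pos x z (by omega : 1 + b.2.1 ≠ 0), Y12_X_pos x z (by omega : 1 + N + b.2.2 ≠ 0)]
    push_cast
    ring

theorem Y12_qua_nonneg (N M : ℕ) (x : ℕ → ℝ) : 0 ≤ qua N M x := by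
  unfold qua
  refine Finset.sum_nonneg fun i _ => mul_nonneg ?_ (sq_nonneg _)
  unfold dd
  split_ifs <;> norm_num

theorem Y12_redS_pos (S : List Con) : (0 : ℝ) < (redS S : ℝ) := by
  unfold redS
  push_cast
  positivity

theorem Y12_redC (S : List Con) : (redC S : ℝ) = (redS S : ℝ) ^ 2 := by
  unfold redC redS
  push_cast
  ring

theorem Y12_isC (κ : ℤ) (S : List Con) : IsCForm (redH κ S) :=
  isCForm_mkH (redS S) κ (redF_idx S)

/-- the main zero -/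
theorem Y12_main (κ : ℤ) (S : List Con) (h : Sat S) : ∃ (x : ℕ → ℝ) (z : ℂ), 0 < z.im ∧
    evR (redH κ S).2 (Y12_X x z) = 0 := by
  obtain ⟨v, w, hvw⟩ := (sat_iff S).1 h
  rw [Y12_redC] at hvw
  obtain ⟨x, hx⟩ := sat_lt (redF_idx S) ⟨v, w, hvw⟩
  set σ : ℝ := (redS S : ℝ) with hσ
  have hσ0 : 0 < σ := Y12_redS_pos S
  set Q : ℝ := qua (redN S) (nv (redN S) (redF S)) x with hQ
  set T : ℝ := trl (redN S) (redF S) x with hT
  have hQ0 : 0 ≤ Q := Y12_qua_nonneg _ _ _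
  have hq : Q ^ 3 < (9 * T / σ) ^ 2 := by
    rw [div_pow, lt_div_iff₀ (by positivity)]
    nlinarith
  obtain ⟨t, ht, ht0⟩ := exists_nonreal hQ0 hq
  refine ⟨x, t - ((lin κ (nv (redN S) (redF S)) x : ℝ) : ℂ), ?_, ?_⟩
  · simpa using ht
  · unfold redH
    rw [evR_mkH, Y12_qua, Y12_trl]
    have hl : lin κ (nv (redN S) (redF S))
        (Y12_X x (t - ((lin κ (nv (redN S) (redF S)) x : ℝ) : ℂ))) = t := by
      have hn : nv (redN S) (redF S) = (2 * redN S + (redF S).length) + 1 := by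
        unfold nv; omega
      rw [hn, Y12_lin]
      ring
    rw [hl, ← hQ, ← hT]
    have hσc : ((redS S : ℤ) : ℂ) = ((σ : ℝ) : ℂ) := by
      rw [hσ]; push_cast; rfl
    rw [hσc]
    have hσ1 : ((σ : ℝ) : ℂ) ≠ 0 := by exact_mod_cast hσ0.ne'
    have e : ((9 * T / σ : ℝ) : ℂ) = 9 * (T : ℂ) / (σ : ℂ) := by push_cast; rfl
    rw [e] at ht0
    have h2 : (σ : ℂ) * (t ^ 3 - 3 * (Q : ℂ) * t + 2 * (9 * (T : ℂ) / (σ : ℂ))) = 0 := by
      rw [ht0, mul_zero]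
    have h3 : (σ : ℂ) * (t ^ 3 - 3 * (Q : ℂ) * t + 2 * (9 * (T : ℂ) / (σ : ℂ))) =
        (σ : ℂ) * t ^ 3 - 3 * (σ : ℂ) * t * (Q : ℂ) + 18 * (T : ℂ) := by
      field_simp
      ring
    rw [← h3, h2]

theorem sat_not_hyp (κ : ℤ) (S : List Con) (h : Sat S) : ¬ Hyp (redH κ S) := by
  intro hh
  obtain ⟨x, z, hz, h0⟩ := Y12_main κ S h
  have := hh.2 (fun i => x i) z ?_
  · exact hz.ne' this
  · rw [← h0]
    refine evR_congr (Y12_isC κ S) fun i hi => ?_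
    simp only [extR, hi, dif_pos, Y12_X, Y12_e]

theorem Y12_ev_e (κ : ℤ) (S : List Con) :
    evR (redH κ S).2 (fun i => ((Y12_e i : ℝ) : ℂ)) = ((redS S : ℝ) : ℂ) := by
  have e : (fun i => ((Y12_e i : ℝ) : ℂ)) = Y12_X (fun _ => 0) 1 := by
    funext i; simp [Y12_X]
  rw [e]
  unfold redH
  rw [evR_mkH, Y12_qua, Y12_trl]
  have hn : nv (redN S) (redF S) = (2 * redN S + (redF S).length) + 1 := by
    unfold nv; omega
  rw [hn, Y12_lin]
  have h1 : lin κ (2 * redN S + (redF S).length + 1) (fun _ => (0 : ℝ)) = 0 := by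
    simp [lin]
  have h2 : qua (redN S) (2 * redN S + (redF S).length + 1) (fun _ => (0 : ℝ)) = 0 := by
    simp [qua]
  have h3 : trl (redN S) (redF S) (fun _ => (0 : ℝ)) = 0 := by
    simp [trl]
  rw [h1, h2, h3]
  simp

theorem sat_not_stab (κ : ℤ) (S : List Con) (h : Sat S) : ¬ Stab (redH κ S) := by
  intro hh
  obtain ⟨x, τ, hτ, h0⟩ := Y12_main κ S h
  have hσ0 : 0 < (redS S : ℝ) := Y12_redS_pos S
  have hσ1 : ((redS S : ℝ) : ℂ) ≠ 0 := by exact_mod_cast hσ0.ne'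
  -- the points `Y ε`
  let Y : ℝ → ℕ → ℂ := fun ε i => ((x i : ℝ) : ℂ) + (ε : ℂ) * Complex.I
  let e : ℕ → ℂ := fun i => ((Y12_e i : ℝ) : ℂ)
  have hY : ∀ i, Continuous fun ε => Y ε i := fun i => by
    show Continuous fun ε : ℝ => ((x i : ℝ) : ℂ) + (ε : ℂ) * Complex.I
    fun_prop
  have hg : Continuous fun ε : ℝ => ‖evR (redH κ S).2 (fun i => Y ε i + τ * e i)‖ := by
    refine (continuous_evR (redH κ S).2 (x := fun ε i => Y ε i + τ * e i) fun i => ?_).norm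
    exact (hY i).add continuous_const
  have hg0 : ‖evR (redH κ S).2 (fun i => Y 0 i + τ * e i)‖ = 0 := by
    have : (fun i => Y 0 i + τ * e i) = Y12_X x τ := by
      funext i
      simp [Y, e, Y12_X]
    rw [this, h0, norm_zero]
  -- choose `ε`
  have hpos : 0 < (redS S : ℝ) * τ.im ^ 3 := by positivity
  have hev : ∀ᶠ ε in nhds (0 : ℝ),
      ‖evR (redH κ S).2 (fun i => Y ε i + τ * e i)‖ < (redS S : ℝ) * τ.im ^ 3 := by
    have hlt : (fun ε : ℝ => ‖evR (redH κ S).2 (fun i => Y ε i + τ * e i)‖) 0 <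
        (redS S : ℝ) * τ.im ^ 3 := by
      show ‖evR (redH κ S).2 (fun i => Y 0 i + τ * e i)‖ < _
      rw [hg0]; exact hpos
    exact hg.continuousAt.eventually_lt continuousAt_const hlt
  obtain ⟨δ, hδ, hball⟩ := Metric.eventually_nhds_iff.1 hev
  have hε : dist (δ / 2) (0 : ℝ) < δ := by
    rw [Real.dist_eq, sub_zero, abs_of_pos (by positivity)]; linarith
  have hε0 : 0 < δ / 2 := by positivity
  have hb := hball hε
  set ε : ℝ := δ / 2 with hεdef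
  obtain ⟨r, hr, hr2⟩ := near_root hσ1 (d1 (redH κ S).2 e (Y ε)) (d1 (redH κ S).2 (Y ε) e)
    (evR (redH κ S).2 (Y ε)) τ
  have hexp : ∀ s : ℂ, evR (redH κ S).2 (fun i => Y ε i + s * e i) =
      ((redS S : ℝ) : ℂ) * s ^ 3 + d1 (redH κ S).2 e (Y ε) * s ^ 2 +
        d1 (redH κ S).2 (Y ε) e * s + evR (redH κ S).2 (Y ε) := by
    intro s
    rw [evR_add (Y12_isC κ S), Y12_ev_e]
    ring
  rw [← hexp] at hr hr2
  have hr3 : ‖τ - r‖ < τ.im := by
    have h1 : (redS S : ℝ) * ‖τ - r‖ ^ 3 < (redS S : ℝ) * τ.im ^ 3 := by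
      have hn : ‖((redS S : ℝ) : ℂ)‖ = (redS S : ℝ) := by
        rw [Complex.norm_real, Real.norm_eq_abs, abs_of_pos hσ0]
      rw [hn] at hr2
      exact lt_of_le_of_lt hr2 hb
    have h2 : ‖τ - r‖ ^ 3 < τ.im ^ 3 := lt_of_mul_lt_mul_left h1 hσ0.le
    exact lt_of_pow_lt_pow_left₀ 3 hτ.le h2
  have hrim : 0 < r.im := by
    have h1 : |(τ - r).im| ≤ ‖τ - r‖ := Complex.abs_im_le_norm _
    have h2 : (τ - r).im ≤ |(τ - r).im| := le_abs_self _
    rw [Complex.sub_im] at h1 h2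
    linarith
  refine hh (fun i => Y ε i + r * e i) (fun i => ?_) ?_
  · have h1 : (Y ε i + r * e i).im = ε + r.im * Y12_e i := by
      simp [Y, e]
    rw [h1]
    have h2 : 0 ≤ Y12_e i := by
      unfold Y12_e; split_ifs <;> norm_num
    have h3 := mul_nonneg hrim.le h2
    linarith
  · rw [← hr]
    refine evR_congr (Y12_isC κ S) fun i hi => ?_
    simp only [extR, hi, dif_pos]

end Pool.Agent.NPC.H549HY
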