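import Pool.Agent.H549R2.HY.Y13

namespace Pool.Agent.NPC.H549HY

open Pool.Agent.H625R2 Pool.Agent.NPC.ER Pool.Agent.NPC.ER.Tens Pool.Agent.NPC.H670R2
open Pool.Agent.NPC.H549CV

theorem Y14_congr_occ {R : Type} [CommRing R] (p : QP) {f g : ℕ → R}
    (hfg : ∀ i ∈ occ p, f i = g i) : evR p f = evR p g := by
  unfold evR
  congr 1
  refine List.map_congr_left fun t ht => ?_
  congr 2
  exact List.map_congr_left fun i hi => hfg i (List.mem_flatMap.mpr ⟨t, ht, hi⟩)

theorem Y14_occ_lt {P : ℕ × QP} (h : IsCForm P) {i : ℕ} (hi : i ∈ occ P.2) : i < P.1 := by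
  unfold occ at hi
  obtain ⟨t, ht, hi2⟩ := List.mem_flatMap.mp hi
  exact (h t ht).2 i hi2

theorem stab_mem (P : ℕ × QP) (h : IsCForm P) : ¬ Stab P ↔ ETR (stabFm P.2) := by
  have hholds : ∀ v : ℕ → ℝ, (stabFm P.2).Holds v ↔
      ((reT P.2).eval v = 0 ∧ (imT P.2).eval v = 0) ∧ ∀ i ∈ occ P.2, 0 < v (2 * i + 3) := by
    intro v
    unfold stabFm
    simp only [holds_conj, List.cons_append, List.nil_append, List.forall_mem_cons,
      Fm.Holds, Tm.eval, List.forall_mem_map, vY, and_assoc]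
  unfold Stab ETR
  simp only [hholds]
  constructor
  · intro hn
    push Not at hn
    obtain ⟨z, hz, h0⟩ := hn
    refine ⟨asg 0 0 (fun i => (z i).re) (fun i => (z i).im), ?_, ?_⟩
    · rw [re_im_zero h]
      rw [← h0]
      congr 1
      funext i
      simp only [vX, vY, Tm.eval, asg_even, asg_odd]
      unfold Pool.Agent.NPC.H549CV.ext extR
      split_ifs with hi
      · apply Complex.ext <;> simp
      · simp
    · intro i hi
      rw [asg_odd]
      unfold Pool.Agent.NPC.H549CV.ext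
      rw [dif_pos (Y14_occ_lt h hi)]
      exact hz _
  · rintro ⟨v, h1, h2⟩ hs
    rw [re_im_zero h] at h1
    refine hs (fun i : Fin P.1 => ((v (2 * (i : ℕ) + 2) : ℝ) : ℂ) +
      Complex.I * (((if (i : ℕ) ∈ occ P.2 then v (2 * (i : ℕ) + 3) else 1 : ℝ)) : ℂ)) ?_ ?_
    · intro i
      simp only [Complex.add_im, Complex.ofReal_im, Complex.mul_im, Complex.I_re, Complex.I_im,
        Complex.ofReal_re, zero_mul, one_mul, zero_add]
      split_ifs with hi
      · exact h2 _ hi
      · exact one_pos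
    · rw [← h1]
      refine Y14_congr_occ P.2 fun i hi => ?_
      unfold extR
      rw [dif_pos (Y14_occ_lt h hi)]
      simp only [vX, vY, Tm.eval, if_pos hi]

end Pool.Agent.NPC.H549HY
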