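import Pool.Agent.H549R2.HY.Y13

namespace Pool.Agent.NPC.H549HY

open Pool.Agent.H625R2 Pool.Agent.NPC.ER Pool.Agent.NPC.ER.Tens Pool.Agent.NPC.H670R2
open Pool.Agent.NPC.H549CV

theorem Y15_congr {R : Type} [CommRing R] (p : QP) {x y : ℕ → R}
    (hxy : ∀ i ∈ occ p, x i = y i) : evR p x = evR p y := by
  unfold evR
  congr 1
  refine List.map_congr_left fun t ht => ?_
  congr 2
  exact List.map_congr_left fun i hi => hxy i (List.mem_flatMap.mpr ⟨t, ht, hi⟩)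

theorem Y15_occ_lt {P : ℕ × QP} (h : IsCForm P) {i : ℕ} (hi : i ∈ occ P.2) : i < P.1 := by
  obtain ⟨t, ht, hi⟩ := List.mem_flatMap.mp hi
  exact (h t ht).2 i hi

theorem Y15_evY (p : QP) (v : ℕ → ℝ) :
    (evT p vY).eval v = evR p (fun i => v (2 * i + 3)) := by
  rw [eval_evT]
  rfl

/-- the assignment of the variables -/
def Y15_asg (a : ℝ) (x y : ℕ → ℝ) (k : ℕ) : ℝ :=
  if k = 0 then a else if k % 2 = 0 then x ((k - 2) / 2) else y ((k - 3) / 2)

theorem Y15_asg_zero (a : ℝ) (x y : ℕ → ℝ) : Y15_asg a x y 0 = a := by simp [Y15_asg]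

theorem Y15_asg_even (a : ℝ) (x y : ℕ → ℝ) (i : ℕ) : Y15_asg a x y (2 * i + 2) = x i := by
  unfold Y15_asg
  rw [if_neg (by omega), if_pos (by omega)]
  congr 1
  omega

theorem Y15_asg_odd (a : ℝ) (x y : ℕ → ℝ) (i : ℕ) : Y15_asg a x y (2 * i + 3) = y i := by
  unfold Y15_asg
  rw [if_neg (by omega), if_neg (by omega)]
  congr 1
  omega

theorem Y15_holds (P : (ℕ × QP) × List ℤ) (h : IsCForm P.1) (v : ℕ → ℝ) :
    (hypFm P).Holds v ↔ 0 < v 0 * v 0 ∧
      (evR P.1.2 (fun i => v (2 * i + 3)) = 0 ∨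
        evR P.1.2 (fun i => ((v (2 * i + 2) : ℝ) : ℂ) +
          Complex.I * ((v (2 * i + 3) : ℝ) : ℂ)) = 0) ∧
      ∀ i ∈ occ P.1.2, v (2 * i + 3) = v 0 * ((P.2.getD i 0 : ℤ) : ℝ) := by
  have h1 := re_im_zero h v
  have h2 := Y15_evY P.1.2 v
  unfold hypFm
  simp only [holds_conj, List.cons_append, List.nil_append, List.forall_mem_cons,
    List.forall_mem_map, Fm.Holds, Tm.eval, h2, h1, eval_intTm, vX, vY]

theorem hyp_mem (P : (ℕ × QP) × List ℤ) (h : IsCForm P.1) : ¬ HypDir P ↔ ETR (hypFm P) := by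
  constructor
  · intro hn
    by_cases h0 : evR P.1.2 (fun i => ((P.2.getD i 0 : ℤ) : ℝ)) = 0
    · refine ⟨Y15_asg 1 (fun _ => 0) (fun i => ((P.2.getD i 0 : ℤ) : ℝ)), ?_⟩
      rw [Y15_holds P h]
      simp only [Y15_asg_zero, Y15_asg_even, Y15_asg_odd]
      exact ⟨by norm_num, Or.inl h0, fun i _ => by ring⟩
    · have hex : ∃ (x : Fin P.1.1 → ℝ) (z : ℂ), evR P.1.2 (fun i => ((extR x i : ℝ) : ℂ) +
          z * ((((P.2.getD i 0 : ℤ) : ℝ) : ℝ) : ℂ)) = 0 ∧ z.im ≠ 0 := by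
        by_contra hc
        push Not at hc
        exact hn ⟨h0, hc⟩
      obtain ⟨x, z, hz, him⟩ := hex
      refine ⟨Y15_asg z.im (fun i => extR x i + z.re * ((P.2.getD i 0 : ℤ) : ℝ))
        (fun i => z.im * ((P.2.getD i 0 : ℤ) : ℝ)), ?_⟩
      rw [Y15_holds P h]
      simp only [Y15_asg_zero, Y15_asg_even, Y15_asg_odd]
      refine ⟨mul_self_pos.mpr him, Or.inr ?_, fun i _ => trivial⟩
      rw [← hz]
      congr 1
      funext i
      apply Complex.ext <;> simp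
  · rintro ⟨v, hv⟩ ⟨he, hx⟩
    rw [Y15_holds P h] at hv
    obtain ⟨hs, hor, hocc⟩ := hv
    have hs' : v 0 ≠ 0 := fun h0 => by simp [h0] at hs
    rcases hor with h1 | h1
    · rw [Y15_congr P.1.2 hocc, evR_smul h] at h1
      exact he ((mul_eq_zero.mp h1).resolve_left (pow_ne_zero 3 hs'))
    · refine hs' ?_
      have h2 := hx (fun i => v (2 * (i : ℕ) + 2)) (Complex.I * ((v 0 : ℝ) : ℂ)) ?_
      · simpa using h2
      · rw [← h1]
        apply Y15_congr
        intro i hi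
        have h3 := Y15_occ_lt h hi
        rw [hocc i hi]
        simp only [extR, dif_pos h3]
        push_cast
        ring

end Pool.Agent.NPC.H549HY
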