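import Pool.Agent.H549R2.HY.Defs

namespace Pool.Agent.NPC.H549HY

open Pool.Agent.H625R2 Pool.Agent.NPC.ER Pool.Agent.NPC.ER.Tens Pool.Agent.NPC.H670R2
open Pool.Agent.NPC.H549CV

theorem cformB_iff (P : ℕ × QP) : cformB P = true ↔ IsCForm P := by
  unfold cformB IsCForm
  simp [List.all_eq_true]

theorem cformB_poly : Poly cformB := by
  refine Poly.all (p := fun (P : ℕ × QP) (t : ℤ × List ℕ) =>
    decide (t.2.length = 3) && t.2.all fun i => decide (i < P.1)) (Poly.snd Poly.id) ?_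
  refine Poly.and (Poly.decide_eq (Poly.length (Poly.snd (Poly.snd Poly.id))) (Poly.const 3)) ?_
  exact Poly.all (p := fun (x : (ℕ × QP) × (ℤ × List ℕ)) (i : ℕ) => decide (i < x.1.1))
    (Poly.snd (Poly.snd Poly.id))
    (Poly.decide_lt (Poly.snd Poly.id) (Poly.fst (Poly.fst (Poly.fst Poly.id))))

theorem Y16_reT {α : Type} [TEnc α] {p : α → QP} (hp : Poly p) : Poly (fun a => reT (p a)) :=
  poly_tadd (evT_poly hp vX_poly) (poly_tneg (dT_poly hp vY_poly vX_poly))

theorem Y16_imT {α : Type} [TEnc α] {p : α → QP} (hp : Poly p) : Poly (fun a => imT (p a)) :=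
  poly_tadd (dT_poly hp vX_poly vY_poly) (poly_tneg (evT_poly hp vY_poly))

theorem stabFm_poly : Poly stabFm := by
  refine poly_conj (Poly.append ?_ ?_)
  · exact Poly.cons (poly_eq (Y16_reT Poly.id) (Poly.const _))
      (Poly.cons (poly_eq (Y16_imT Poly.id) (Poly.const _)) (Poly.const _))
  · exact Poly.map (F := fun (_ : QP) (i : ℕ) => Fm.lt Tm.zero (vY i)) occ_poly
      (poly_lt (Poly.const _) (vY_poly.comp (Poly.snd Poly.id)))

theorem hypFm_poly : Poly hypFm := by
  have hp : Poly (fun P : (ℕ × QP) × List ℤ => P.1.2) := Poly.snd (Poly.fst Poly.id)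
  have hl : Poly (fun P : (ℕ × QP) × List ℤ => P.2) := Poly.snd Poly.id
  refine poly_conj (Poly.append ?_ ?_)
  · exact Poly.cons (Poly.const _) (Poly.cons (poly_or (poly_eq (evT_poly hp vY_poly)
      (Poly.const _)) (poly_and (poly_eq (Y16_reT hp) (Poly.const _))
        (poly_eq (Y16_imT hp) (Poly.const _)))) (Poly.const _))
  · refine Poly.map (F := fun (P : (ℕ × QP) × List ℤ) (i : ℕ) =>
      Fm.eq (vY i) (Tm.mul (Tm.var 0) (intTm (P.2.getD i 0)))) (occ_poly.comp hp) ?_
    refine poly_eq (vY_poly.comp (Poly.snd Poly.id)) (poly_tmul (Poly.const _) (poly_intTm ?_))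
    exact Poly.getD (d := fun _ => 0) (hl.comp (Poly.fst Poly.id)) (Poly.snd Poly.id)
      (Poly.const _)

end Pool.Agent.NPC.H549HY
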