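import Pool.Agent.H549R2.HY.Y2
import Pool.Agent.H549R2.HY.Y11
import Pool.Agent.H549R2.HY.Y12
import Pool.Agent.H549R2.HY.Y14
import Pool.Agent.H549R2.HY.Y15
import Pool.Agent.H549R2.HY.Y16

/-!
# Hyperbolic and real stable cubic forms: all parts
-/
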