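import Pool.Agent.H549R2.CV.M

/-!
# Hyperbolic and real stable cubic forms: definitions
-/

namespace Pool.Agent.NPC.H549HY

open Pool.Agent.H625R2 Pool.Agent.NPC.ER Pool.Agent.NPC.ER.Tens Pool.Agent.NPC.H670R2
open Pool.Agent.NPC.H549CV

/-- the value of a polynomial (given by a list of terms) at a point with coordinates in a
commutative ring -/
def evR {R : Type} [CommRing R] (p : QP) (x : ℕ → R) : R :=
  (p.map fun t => (t.1 : R) * (t.2.map x).prod).sum

/-- extension of a vector by zeros -/
def extR {R : Type} [CommRing R] {n : ℕ} (x : Fin n → R) (i : ℕ) : R :=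
  if h : i < n then x ⟨i, h⟩ else 0

/-- `P = (n, p)` is a cubic form: all terms have degree three and variables less than `n` -/
def IsCForm (P : ℕ × QP) : Prop := ∀ t ∈ P.2, t.2.length = 3 ∧ ∀ i ∈ t.2, i < P.1

/-- the form `P` is hyperbolic with respect to `e`: it does not vanish at `e`, and for all real
`x` the polynomial `z ↦ P (x + z e)` has only real zeros -/
def HypW (P : ℕ × QP) (e : ℕ → ℝ) : Prop := evR P.2 e ≠ 0 ∧ ∀ (x : Fin P.1 → ℝ) (z : ℂ),
  evR P.2 (fun i => ((extR x i : ℝ) : ℂ) + z * ((e i : ℝ) : ℂ)) = 0 → z.im = 0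

/-- hyperbolic with respect to the first unit vector -/
def Hyp (P : ℕ × QP) : Prop := HypW P fun i => if i = 0 then 1 else 0

/-- hyperbolic with respect to a vector with integer coordinates -/
def HypDir (P : (ℕ × QP) × List ℤ) : Prop := HypW P.1 fun i => ((P.2.getD i 0 : ℤ) : ℝ)

/-- real stable: no zeros with all coordinates in the open upper half plane -/
def Stab (P : ℕ × QP) : Prop := ∀ z : Fin P.1 → ℂ, (∀ i, 0 < (z i).im) → evR P.2 (extR z) ≠ 0

section Form

/-- the coefficients of the linear form -/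
def cc (κ : ℤ) (k : ℕ) : ℤ := if k = 0 then 1 else κ

/-- the coefficients of the quadratic form -/
def dd (N k : ℕ) : ℤ := if k = 0 then 0 else if k < 1 + 2 * N then 1 else 3

/-- the terms of the cube of the linear form -/
def termsL (σ κ : ℤ) (M : ℕ) : QP := (List.range M).flatMap fun k =>
  (List.range M).flatMap fun l => (List.range M).map fun q =>
    (σ * (cc κ k * cc κ l * cc κ q), [k, l, q])

/-- the terms of the product of the linear form and the quadratic form -/
def termsQ (σ κ : ℤ) (N M : ℕ) : QP := (List.range M).flatMap fun k =>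
  (List.range M).map fun i => (-(3 * σ) * (cc κ k * dd N i), [k, i, i])

/-- the terms of the trilinear form -/
def termsT (N : ℕ) (F : List (List (Bool × ℕ × ℕ))) : QP := (List.range F.length).flatMap fun j =>
  (F.getD j []).map fun b => (18 * sgnZ b.1, [1 + 2 * N + j, 1 + b.2.1, 1 + N + b.2.2])

/-- the number of variables -/
def nv (N : ℕ) (F : List (List (Bool × ℕ × ℕ))) : ℕ := 1 + 2 * N + F.length

/-- the cubic form `σ ℓ³ - 3 σ ℓ Q + 18 T` -/
def mkH (σ κ : ℤ) (N : ℕ) (F : List (List (Bool × ℕ × ℕ))) : ℕ × QP :=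
  (nv N F, termsL σ κ (nv N F) ++ (termsQ σ κ N (nv N F) ++ termsT N F))

/-- the linear form -/
def lin {R : Type} [CommRing R] (κ : ℤ) (M : ℕ) (x : ℕ → R) : R :=
  ∑ k ∈ Finset.range M, (cc κ k : R) * x k

/-- the quadratic form -/
def qua {R : Type} [CommRing R] (N M : ℕ) (x : ℕ → R) : R :=
  ∑ i ∈ Finset.range M, (dd N i : R) * x i ^ 2

/-- the trilinear form -/
def trl {R : Type} [CommRing R] (N : ℕ) (F : List (List (Bool × ℕ × ℕ))) (x : ℕ → R) : R :=
  ∑ j ∈ Finset.range F.length, x (1 + 2 * N + j) *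
    ((F.getD j []).map fun b => (sgnZ b.1 : R) * (x (1 + b.2.1) * x (1 + N + b.2.2))).sum

/-- the number `σ` of the reduction -/
noncomputable def redS (S : List Con) : ℤ := ((4 * (rl (redQ S)).length + 5 : ℕ) : ℤ)

/-- the reduction -/
noncomputable def redH (κ : ℤ) (S : List Con) : ℕ × QP := mkH (redS S) κ (redN S) (redF S)

/-- the polarization of a monomial of degree three -/
def m1 {R : Type} [CommRing R] (l : List ℕ) (x y : ℕ → R) : R :=
  y (l.getD 0 0) * x (l.getD 1 0) * x (l.getD 2 0) + x (l.getD 0 0) * y (l.getD 1 0) *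
    x (l.getD 2 0) + x (l.getD 0 0) * x (l.getD 1 0) * y (l.getD 2 0)

/-- the derivative of a cubic form at `x` in direction `y` -/
def d1 {R : Type} [CommRing R] (p : QP) (x y : ℕ → R) : R :=
  (p.map fun t => (t.1 : R) * m1 t.2 x y).sum

end Form

section Membership

/-- test for cubic forms -/
def cformB (P : ℕ × QP) : Bool :=
  P.2.all fun t => decide (t.2.length = 3) && t.2.all fun i => decide (i < P.1)

/-- the real part of the value at `x + i y` -/
def reT (p : QP) : Tm := Tm.add (evT p vX) (Tm.neg (dT p vY vX))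

/-- the imaginary part of the value at `x + i y` -/
def imT (p : QP) : Tm := Tm.add (dT p vX vY) (Tm.neg (evT p vY))

/-- not real stable -/
def stabFm (p : QP) : Fm := conj ([Fm.eq (reT p) Tm.zero, Fm.eq (imT p) Tm.zero] ++
  (occ p).map fun i => Fm.lt Tm.zero (vY i))

/-- not hyperbolic -/
def hypFm (P : (ℕ × QP) × List ℤ) : Fm := conj ([Fm.lt Tm.zero (Tm.mul (Tm.var 0) (Tm.var 0)),
  Fm.or (Fm.eq (evT P.1.2 vY) Tm.zero)
    (Fm.and (Fm.eq (reT P.1.2) Tm.zero) (Fm.eq (imT P.1.2) Tm.zero))] ++
  (occ P.1.2).map fun i => Fm.eq (vY i) (Tm.mul (Tm.var 0) (intTm (P.2.getD i 0))))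

end Membership

end Pool.Agent.NPC.H549HY
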