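import Pool.Agent.H549R2.HY.All

/-!
# Hyperbolicity and real stability of cubic forms are `∀ℝ`-complete
-/

namespace Pool.Agent.NPC.H549HY

open Pool.Agent.H625R2 Pool.Agent.NPC.ER Pool.Agent.NPC.ER.Tens Pool.Agent.NPC.H670R2
open Pool.Agent.NPC.H549CV

theorem isCForm_redH (κ : ℤ) (S : List Con) : IsCForm (redH κ S) := isCForm_mkH _ _ (redF_idx S)

theorem hyp_iff_dir (P : ℕ × QP) : Hyp P ↔ HypDir (P, [1]) := by
  unfold Hyp HypDir
  have h : (fun i : ℕ => if i = 0 then (1 : ℝ) else 0) =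
      fun i => ((([1] : List ℤ).getD i 0 : ℤ) : ℝ) := by
    funext i
    rcases i with _ | i <;> simp
  rw [h]

section Complete

variable {α : Type} [TEnc α] [TDec α] {D Q : α → Prop} {DB : α → Bool} {φ : α → Fm}
  {f : List Con → α}

theorem ar_complete (hDB : ∀ P, DB P = true ↔ D P) (hDp : Poly DB) (hφ : Poly φ) (hf : Poly f)
    (hm : ∀ P, D P → (¬ Q P ↔ ETR (φ P))) (hD : ∀ S, D (f S))
    (hQ : ∀ S, ¬ Sat S ↔ Q (f S)) : ARComplete (lang fun P => D P ∧ Q P) := by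
  refine ⟨InAR.of_poly (φ := fun P => if DB P = true then φ P else tt)
    (Poly.ite (Poly.decide_bool hDp) hφ (Poly.const _)) fun P => ?_,
    ARHard.of_sys hf fun S => ?_⟩
  · by_cases h : DB P = true
    · rw [if_pos h, ← hm P ((hDB P).1 h)]
      have := (hDB P).1 h
      tauto
    · rw [if_neg h]
      have h2 : ¬ D P := fun h' => h ((hDB P).2 h')
      constructor
      · intro _; exact ⟨fun _ => 0, holds_tt _⟩
      · intro _ h'; exact h2 h'.1
  · rw [hQ S]
    exact ⟨fun h => ⟨hD S, h⟩, fun h => h.2⟩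

theorem er_complete (hDB : ∀ P, DB P = true ↔ D P) (hDp : Poly DB) (hφ : Poly φ) (hf : Poly f)
    (hm : ∀ P, D P → (¬ Q P ↔ ETR (φ P))) (hD : ∀ S, D (f S))
    (hQ : ∀ S, ¬ Sat S ↔ Q (f S)) : ERComplete (lang fun P => D P ∧ ¬ Q P) := by
  refine ⟨InER.of_poly (φ := fun P => if DB P = true then φ P else ff)
    (Poly.ite (Poly.decide_bool hDp) hφ (Poly.const _)) fun P => ?_,
    ERHard.of_sys hf fun S => ?_⟩
  · by_cases h : DB P = true
    · rw [if_pos h, ← hm P ((hDB P).1 h)]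
      have := (hDB P).1 h
      tauto
    · rw [if_neg h]
      have h2 : ¬ D P := fun h' => h ((hDB P).2 h')
      constructor
      · intro h'; exact absurd h'.1 h2
      · rintro ⟨x, hx⟩; exact absurd hx (holds_ff x)
  · have h : Sat S ↔ ¬ Q (f S) := by rw [← hQ S, not_not]
    rw [h]
    exact ⟨fun h => ⟨hD S, h⟩, fun h => h.2⟩

/-- both statements, and the equivalence with `∃ℝ = NP` -/
theorem all_complete (hDB : ∀ P, DB P = true ↔ D P) (hDp : Poly DB) (hφ : Poly φ) (hf : Poly f)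
    (hm : ∀ P, D P → (¬ Q P ↔ ETR (φ P))) (hD : ∀ S, D (f S))
    (hQ : ∀ S, ¬ Sat S ↔ Q (f S)) : ARComplete (lang fun P => D P ∧ Q P) ∧
      ERComplete (lang fun P => D P ∧ ¬ Q P) ∧
      ((∀ L : Set (List Bool), InER L → InNP L) ↔ InNP (lang fun P => D P ∧ ¬ Q P)) :=
  ⟨ar_complete hDB hDp hφ hf hm hD hQ, er_complete hDB hDp hφ hf hm hD hQ,
    np_iff (er_complete hDB hDp hφ hf hm hD hQ)⟩

end Complete

theorem dirMap_poly : Poly (fun P : ℕ × QP => (P, ([1] : List ℤ))) :=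
  Poly.pair Poly.id (Poly.const _)

theorem hyp_complete : ARComplete (lang fun P => IsCForm P ∧ Hyp P) ∧
    ERComplete (lang fun P => IsCForm P ∧ ¬ Hyp P) ∧
    ((∀ L : Set (List Bool), InER L → InNP L) ↔ InNP (lang fun P => IsCForm P ∧ ¬ Hyp P)) :=
  all_complete (φ := fun P => hypFm (P, [1])) cformB_iff cformB_poly
    (hypFm_poly.comp dirMap_poly) (redH_poly 0)
    (fun P h => by rw [hyp_iff_dir]; exact hyp_mem (P, [1]) h) (isCForm_redH 0)
    (fun S => ⟨unsat_hyp 0 S, fun h hs => sat_not_hyp 0 S hs h⟩)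

theorem hypDir_complete :
    ARComplete (lang fun P : (ℕ × QP) × List ℤ => IsCForm P.1 ∧ HypDir P) ∧
    ERComplete (lang fun P : (ℕ × QP) × List ℤ => IsCForm P.1 ∧ ¬ HypDir P) ∧
    ((∀ L : Set (List Bool), InER L → InNP L) ↔
      InNP (lang fun P : (ℕ × QP) × List ℤ => IsCForm P.1 ∧ ¬ HypDir P)) :=
  all_complete (D := fun P : (ℕ × QP) × List ℤ => IsCForm P.1) (Q := HypDir)
    (DB := fun P => cformB P.1) (φ := hypFm) (f := fun S => (redH 0 S, [1]))
    (fun P => cformB_iff P.1) (cformB_poly.comp (Poly.fst Poly.id)) hypFm_poly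
    (dirMap_poly.comp (redH_poly 0)) (fun P h => hyp_mem P h) (fun S => isCForm_redH 0 S)
    (fun S => by
      rw [← hyp_iff_dir]
      exact ⟨unsat_hyp 0 S, fun h hs => sat_not_hyp 0 S hs h⟩)

theorem stab_complete : ARComplete (lang fun P => IsCForm P ∧ Stab P) ∧
    ERComplete (lang fun P => IsCForm P ∧ ¬ Stab P) ∧
    ((∀ L : Set (List Bool), InER L → InNP L) ↔ InNP (lang fun P => IsCForm P ∧ ¬ Stab P)) :=
  all_complete (φ := fun P => stabFm P.2) cformB_iff cformB_poly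
    (stabFm_poly.comp (Poly.snd Poly.id)) (redH_poly 4) (fun P h => stab_mem P h) (isCForm_redH 4)
    (fun S => ⟨unsat_stab S, fun h hs => sat_not_stab 4 S hs h⟩)

end Pool.Agent.NPC.H549HY
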