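import Pool.Agent.H549R2.HY.Defs

namespace Pool.Agent.NPC.H549HY

open Pool.Agent.H625R2 Pool.Agent.NPC.ER Pool.Agent.NPC.ER.Tens Pool.Agent.NPC.H670R2
open Pool.Agent.NPC.H549CV

theorem Y1_append {R : Type} [CommRing R] (p q : QP) (x : ℕ → R) :
    evR (p ++ q) x = evR p x + evR q x := by
  unfold evR
  rw [List.map_append, List.sum_append]

theorem Y1_flatMap {R : Type} [CommRing R] {α : Type} (l : List α) (f : α → QP) (x : ℕ → R) :
    evR (l.flatMap f) x = (l.map fun a => evR (f a) x).sum := by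
  induction l with
  | nil => simp [evR]
  | cons a l ih => rw [List.flatMap_cons, Y1_append, ih, List.map_cons, List.sum_cons]

theorem Y1_map {R : Type} [CommRing R] {α : Type} (l : List α) (f : α → ℤ × List ℕ) (x : ℕ → R) :
    evR (l.map f) x = (l.map fun a => ((f a).1 : R) * ((f a).2.map x).prod).sum := by
  unfold evR
  rw [List.map_map]
  rfl

theorem Y1_lsr {R : Type} [AddCommMonoid R] (n : ℕ) (f : ℕ → R) :
    ((List.range n).map f).sum = ∑ i ∈ Finset.range n, f i := by
  induction n with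
  | zero => simp
  | succ n ih => simp [List.range_succ, Finset.sum_range_succ, ih]

theorem Y1_lin {R : Type} [CommRing R] (κ : ℤ) (M : ℕ) (x : ℕ → R) (c : R) :
    ∑ l ∈ Finset.range M, c * ((cc κ l : R) * x l) = c * lin κ M x := by
  unfold lin
  rw [Finset.mul_sum]

theorem Y1_L {R : Type} [CommRing R] (σ κ : ℤ) (M : ℕ) (x : ℕ → R) :
    evR (termsL σ κ M) x = (σ : R) * lin κ M x ^ 3 := by
  unfold termsL
  rw [Y1_flatMap, Y1_lsr]
  have h1 : ∀ k l : ℕ, evR ((List.range M).map fun q =>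
      (σ * (cc κ k * cc κ l * cc κ q), [k, l, q])) x =
      ((σ : R) * ((cc κ k : R) * x k) * lin κ M x) * ((cc κ l : R) * x l) := by
    intro k l
    rw [Y1_map, Y1_lsr]
    have h2 : ∀ q : ℕ, ((σ * (cc κ k * cc κ l * cc κ q) : ℤ) : R) * (([k, l, q] : List ℕ).map x).prod =
        ((σ : R) * ((cc κ k : R) * x k) * ((cc κ l : R) * x l)) * ((cc κ q : R) * x q) := by
      intro q
      simp only [List.map_cons, List.map_nil, List.prod_cons, List.prod_nil]
      push_cast
      ring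
    rw [Finset.sum_congr rfl (fun q _ => h2 q), Y1_lin]
    ring
  have h3 : ∀ k : ℕ, evR ((List.range M).flatMap fun l => (List.range M).map fun q =>
      (σ * (cc κ k * cc κ l * cc κ q), [k, l, q])) x =
      ((σ : R) * lin κ M x * lin κ M x) * ((cc κ k : R) * x k) := by
    intro k
    rw [Y1_flatMap, Y1_lsr, Finset.sum_congr rfl (fun l _ => h1 k l), Y1_lin]
    ring
  rw [Finset.sum_congr rfl (fun k _ => h3 k), Y1_lin]
  ring

theorem Y1_Q {R : Type} [CommRing R] (σ κ : ℤ) (N M : ℕ) (x : ℕ → R) :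
    evR (termsQ σ κ N M) x = -(3 * (σ : R) * lin κ M x * qua N M x) := by
  unfold termsQ
  rw [Y1_flatMap, Y1_lsr]
  have h1 : ∀ k : ℕ, evR ((List.range M).map fun i =>
      (-(3 * σ) * (cc κ k * dd N i), [k, i, i])) x =
      (-(3 * (σ : R) * qua N M x)) * ((cc κ k : R) * x k) := by
    intro k
    rw [Y1_map, Y1_lsr]
    have h2 : ∀ i : ℕ, ((-(3 * σ) * (cc κ k * dd N i) : ℤ) : R) *
        (([k, i, i] : List ℕ).map x).prod =
        (-(3 * (σ : R)) * ((cc κ k : R) * x k)) * ((dd N i : R) * x i ^ 2) := by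
      intro q
      simp only [List.map_cons, List.map_nil, List.prod_cons, List.prod_nil]
      push_cast
      ring
    rw [Finset.sum_congr rfl (fun q _ => h2 q), ← Finset.mul_sum]
    unfold qua
    ring
  rw [Finset.sum_congr rfl (fun k _ => h1 k), Y1_lin]
  ring

theorem Y1_T {R : Type} [CommRing R] (N : ℕ) (F : List (List (Bool × ℕ × ℕ))) (x : ℕ → R) :
    evR (termsT N F) x = 18 * trl N F x := by
  unfold termsT trl
  rw [Y1_flatMap, Y1_lsr, Finset.mul_sum]
  apply Finset.sum_congr rfl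
  intro j _
  rw [Y1_map]
  have h1 : ∀ b : Bool × ℕ × ℕ, ((18 * sgnZ b.1 : ℤ) : R) *
      (([1 + 2 * N + j, 1 + b.2.1, 1 + N + b.2.2] : List ℕ).map x).prod =
      (18 * x (1 + 2 * N + j)) * ((sgnZ b.1 : R) * (x (1 + b.2.1) * x (1 + N + b.2.2))) := by
    intro b
    simp only [List.map_cons, List.map_nil, List.prod_cons, List.prod_nil]
    push_cast
    ring
  have h2 : ((F.getD j []).map fun b => ((18 * sgnZ b.1 : ℤ) : R) *
      (([1 + 2 * N + j, 1 + b.2.1, 1 + N + b.2.2] : List ℕ).map x).prod) =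
      (F.getD j []).map fun b =>
        (18 * x (1 + 2 * N + j)) * ((sgnZ b.1 : R) * (x (1 + b.2.1) * x (1 + N + b.2.2))) :=
    List.map_congr_left (fun b _ => h1 b)
  rw [h2, List.sum_map_mul_left]
  ring

theorem evR_mkH {R : Type} [CommRing R] (σ κ : ℤ) (N : ℕ) (F : List (List (Bool × ℕ × ℕ)))
    (x : ℕ → R) : evR (mkH σ κ N F).2 x = (σ : R) * lin κ (nv N F) x ^ 3 -
      3 * (σ : R) * lin κ (nv N F) x * qua N (nv N F) x + 18 * trl N F x := by
  unfold mkH
  rw [Y1_append, Y1_append, Y1_L, Y1_Q, Y1_T]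
  ring

theorem isCForm_mkH (σ κ : ℤ) {N : ℕ} {F : List (List (Bool × ℕ × ℕ))}
    (hF : ∀ b ∈ F, ∀ m ∈ b, m.2.1 < N ∧ m.2.2 < N) : IsCForm (mkH σ κ N F) := by
  intro t ht
  unfold mkH at ht ⊢
  simp only at ht ⊢
  rw [List.mem_append, List.mem_append] at ht
  rcases ht with ht | ht | ht
  · unfold termsL at ht
    rw [List.mem_flatMap] at ht
    obtain ⟨k, hk, ht⟩ := ht
    rw [List.mem_flatMap] at ht
    obtain ⟨l, hl, ht⟩ := ht
    rw [List.mem_map] at ht
    obtain ⟨q, hq, rfl⟩ := ht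
    rw [List.mem_range] at hk hl hq
    refine ⟨rfl, ?_⟩
    intro i hi
    simp only [List.mem_cons, List.not_mem_nil, or_false] at hi
    rcases hi with rfl | rfl | rfl <;> assumption
  · unfold termsQ at ht
    rw [List.mem_flatMap] at ht
    obtain ⟨k, hk, ht⟩ := ht
    rw [List.mem_map] at ht
    obtain ⟨q, hq, rfl⟩ := ht
    rw [List.mem_range] at hk hq
    refine ⟨rfl, ?_⟩
    intro i hi
    simp only [List.mem_cons, List.not_mem_nil, or_false] at hi
    rcases hi with rfl | rfl | rfl <;> assumption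
  · unfold termsT at ht
    rw [List.mem_flatMap] at ht
    obtain ⟨j, hj, ht⟩ := ht
    rw [List.mem_map] at ht
    obtain ⟨m, hm, rfl⟩ := ht
    rw [List.mem_range] at hj
    have h1 : F.getD j [] ∈ F := by
      rw [List.getD_eq_getElem _ _ hj]
      exact List.getElem_mem hj
    have h2 := hF _ h1 m hm
    refine ⟨rfl, ?_⟩
    intro i hi
    simp only [List.mem_cons, List.not_mem_nil, or_false] at hi
    unfold nv
    rcases hi with rfl | rfl | rfl <;> omega

end Pool.Agent.NPC.H549HY
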