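import Pool.Agent.H549R2.HY.Y8

namespace Pool.Agent.NPC.H549HY

open Pool.Agent.H625R2 Pool.Agent.NPC.ER Pool.Agent.NPC.ER.Tens Pool.Agent.NPC.H670R2
open Pool.Agent.NPC.H549CV

theorem dpev_eq {P : ℕ × QP} (h : IsCForm P) (x y : ℕ → ℝ) : dpev P.2 x y = d1 P.2 x y := by
  unfold dpev d1
  congr 1
  refine List.map_congr_left fun t ht => ?_
  obtain ⟨a, b, c, hl⟩ := List.length_eq_three.mp (h t ht).1
  congr 1
  rw [hl]
  unfold dprod m1
  have e0 : (Finset.range 3).erase 0 = {1, 2} := by decide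
  have e1 : (Finset.range 3).erase 1 = {0, 2} := by decide
  have e2 : (Finset.range 3).erase 2 = {0, 1} := by decide
  have hlen : [a, b, c].length = 3 := rfl
  rw [hlen, Finset.sum_range_succ, Finset.sum_range_succ, Finset.sum_range_succ,
    Finset.sum_range_zero, e0, e1, e2]
  rw [Finset.prod_pair (by decide), Finset.prod_pair (by decide), Finset.prod_pair (by decide)]
  simp only [List.getD_cons_zero, List.getD_cons_succ]
  ring

theorem re_im {P : ℕ × QP} (h : IsCForm P) (x y : ℕ → ℝ) :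
    evR P.2 (fun i => ((x i : ℝ) : ℂ) + Complex.I * ((y i : ℝ) : ℂ)) =
      ((evR P.2 x - d1 P.2 y x : ℝ) : ℂ) + Complex.I * ((d1 P.2 x y - evR P.2 y : ℝ) : ℂ) := by
  have h1 := evR_add h (fun i => ((x i : ℝ) : ℂ)) (fun i => ((y i : ℝ) : ℂ)) Complex.I
  rw [evR_ofReal, evR_ofReal, d1_ofReal, d1_ofReal] at h1
  rw [h1]
  have h2 : Complex.I ^ 3 = - Complex.I := by
    rw [pow_succ, Complex.I_sq]
    ring
  rw [h2, Complex.I_sq]
  push_cast
  ring

theorem re_im_zero {P : ℕ × QP} (h : IsCForm P) (v : ℕ → ℝ) :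
    ((reT P.2).eval v = 0 ∧ (imT P.2).eval v = 0) ↔
      evR P.2 (fun i => (((vX i).eval v : ℝ) : ℂ) + Complex.I * (((vY i).eval v : ℝ) : ℂ)) = 0 := by
  have e1 : (reT P.2).eval v = evR P.2 (fun i => (vX i).eval v) -
      d1 P.2 (fun i => (vY i).eval v) (fun i => (vX i).eval v) := by
    unfold reT
    rw [Tm.eval, Tm.eval, eval_evT, eval_dT, dpev_eq h, sub_eq_add_neg]
    rfl
  have e2 : (imT P.2).eval v = d1 P.2 (fun i => (vX i).eval v) (fun i => (vY i).eval v) -
      evR P.2 (fun i => (vY i).eval v) := by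
    unfold imT
    rw [Tm.eval, Tm.eval, eval_evT, eval_dT, dpev_eq h, sub_eq_add_neg]
    rfl
  rw [re_im h, ← e1, ← e2, Complex.ext_iff]
  simp

end Pool.Agent.NPC.H549HY
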