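import Pool.Agent.H549R2.HY.Defs
import Pool.Agent.H549R2.CV.W6

namespace Pool.Agent.NPC.H549HY

open Pool.Agent.H625R2 Pool.Agent.NPC.ER Pool.Agent.NPC.ER.Tens Pool.Agent.NPC.H670R2
open Pool.Agent.NPC.H549CV

section

variable {α : Type} [TEnc α]

theorem Y2_cmul (c : ℤ) {s : α → ℕ} (hs : Poly s) : Poly (fun a => c * ((s a : ℕ) : ℤ)) := by
  rcases le_total 0 c with h | h
  · refine (poly_natInt (Poly.mul (Poly.const c.natAbs) hs)).congr fun a => ?_
    push_cast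
    rw [abs_of_nonneg h]
  · refine (poly_natNegInt (Poly.mul (Poly.const c.natAbs) hs)).congr fun a => ?_
    push_cast
    rw [abs_of_nonpos h]
    ring

theorem Y2_coefL (κ : ℤ) {s k l q : α → ℕ} (hs : Poly s) (hk : Poly k) (hl : Poly l)
    (hq : Poly q) :
    Poly (fun a => ((s a : ℕ) : ℤ) * (cc κ (k a) * cc κ (l a) * cc κ (q a))) := by
  have z : ∀ c : ℤ, Poly (fun a => c * ((s a : ℕ) : ℤ)) := fun c => Y2_cmul c hs
  have dk : Poly (fun a => decide (k a = 0)) := Poly.decide_eq hk (Poly.const 0)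
  have dl : Poly (fun a => decide (l a = 0)) := Poly.decide_eq hl (Poly.const 0)
  have dq : Poly (fun a => decide (q a = 0)) := Poly.decide_eq hq (Poly.const 0)
  refine (Poly.ite (p := fun a => k a = 0) dk
    (Poly.ite (p := fun a => l a = 0) dl (Poly.ite (p := fun a => q a = 0) dq (z 1) (z κ))
      (Poly.ite (p := fun a => q a = 0) dq (z κ) (z (κ * κ))))
    (Poly.ite (p := fun a => l a = 0) dl
      (Poly.ite (p := fun a => q a = 0) dq (z κ) (z (κ * κ)))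
      (Poly.ite (p := fun a => q a = 0) dq (z (κ * κ)) (z (κ * κ * κ))))).congr fun a => ?_
  unfold cc
  split_ifs <;> ring

theorem Y2_termsL (κ : ℤ) {s M : α → ℕ} (hs : Poly s) (hM : UPoly M) :
    Poly (fun a => termsL ((s a : ℕ) : ℤ) κ (M a)) := by
  refine Poly.flatMap (F := fun a k => (List.range (M a)).flatMap fun l =>
    (List.range (M a)).map fun q =>
      (((s a : ℕ) : ℤ) * (cc κ k * cc κ l * cc κ q), [k, l, q])) hM.range ?_
  refine Poly.flatMap (F := fun (x : α × ℕ) l => (List.range (M x.1)).map fun q =>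
    (((s x.1 : ℕ) : ℤ) * (cc κ x.2 * cc κ l * cc κ q), [x.2, l, q]))
    (hM.range.comp (Poly.fst Poly.id)) ?_
  refine Poly.map (F := fun (x : (α × ℕ) × ℕ) q =>
    (((s x.1.1 : ℕ) : ℤ) * (cc κ x.1.2 * cc κ x.2 * cc κ q), [x.1.2, x.2, q]))
    (hM.range.comp (Poly.fst (Poly.fst Poly.id))) ?_
  have k0 : Poly (fun y : ((α × ℕ) × ℕ) × ℕ => s y.1.1.1) :=
    hs.comp (Poly.fst (Poly.fst (Poly.fst Poly.id)))
  have k1 : Poly (fun y : ((α × ℕ) × ℕ) × ℕ => y.1.1.2) := Poly.snd (Poly.fst (Poly.fst Poly.id))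
  have k2 : Poly (fun y : ((α × ℕ) × ℕ) × ℕ => y.1.2) := Poly.snd (Poly.fst Poly.id)
  have k3 : Poly (fun y : ((α × ℕ) × ℕ) × ℕ => y.2) := Poly.snd Poly.id
  exact Poly.pair (Y2_coefL κ k0 k1 k2 k3)
    (Poly.cons k1 (Poly.cons k2 (Poly.cons k3 (Poly.const []))))

theorem Y2_coefQ (κ : ℤ) {s N k i : α → ℕ} (hs : Poly s) (hN : Poly N) (hk : Poly k)
    (hi : Poly i) :
    Poly (fun a => -(3 * ((s a : ℕ) : ℤ)) * (cc κ (k a) * dd (N a) (i a))) := by
  have z : ∀ c : ℤ, Poly (fun a => c * ((s a : ℕ) : ℤ)) := fun c => Y2_cmul c hs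
  have dk : Poly (fun a => decide (k a = 0)) := Poly.decide_eq hk (Poly.const 0)
  have di : Poly (fun a => decide (i a = 0)) := Poly.decide_eq hi (Poly.const 0)
  have dn : Poly (fun a => decide (i a < 1 + 2 * N a)) :=
    Poly.decide_lt hi (Poly.add (Poly.const 1) (Poly.mul (Poly.const 2) hN))
  refine (Poly.ite (p := fun a => i a = 0) di (z 0)
    (Poly.ite (p := fun a => i a < 1 + 2 * N a) dn
      (Poly.ite (p := fun a => k a = 0) dk (z (-3)) (z (-3 * κ)))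
      (Poly.ite (p := fun a => k a = 0) dk (z (-9)) (z (-9 * κ))))).congr fun a => ?_
  unfold cc dd
  split_ifs <;> ring

theorem Y2_termsQ (κ : ℤ) {s N M : α → ℕ} (hs : Poly s) (hN : Poly N) (hM : UPoly M) :
    Poly (fun a => termsQ ((s a : ℕ) : ℤ) κ (N a) (M a)) := by
  refine Poly.flatMap (F := fun a k => (List.range (M a)).map fun i =>
    (-(3 * ((s a : ℕ) : ℤ)) * (cc κ k * dd (N a) i), [k, i, i])) hM.range ?_
  refine Poly.map (F := fun (x : α × ℕ) i =>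
    (-(3 * ((s x.1 : ℕ) : ℤ)) * (cc κ x.2 * dd (N x.1) i), [x.2, i, i]))
    (hM.range.comp (Poly.fst Poly.id)) ?_
  have k0 : Poly (fun y : (α × ℕ) × ℕ => s y.1.1) := hs.comp (Poly.fst (Poly.fst Poly.id))
  have kN : Poly (fun y : (α × ℕ) × ℕ => N y.1.1) := hN.comp (Poly.fst (Poly.fst Poly.id))
  have k1 : Poly (fun y : (α × ℕ) × ℕ => y.1.2) := Poly.snd (Poly.fst Poly.id)
  have k2 : Poly (fun y : (α × ℕ) × ℕ => y.2) := Poly.snd Poly.id
  exact Poly.pair (Y2_coefQ κ k0 kN k1 k2)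
    (Poly.cons k1 (Poly.cons k2 (Poly.cons k2 (Poly.const []))))

theorem Y2_sgn {b : α → Bool} (hb : Poly b) : Poly (fun a => 18 * sgnZ (b a)) := by
  have h1 : Poly (fun a => decide (b a = true)) := Poly.decide_eq hb (Poly.const true)
  refine (Poly.ite (p := fun a => b a = true) h1 (Poly.const (18 * sgnZ true))
    (Poly.const (18 * sgnZ false))).congr fun a => ?_
  cases b a <;> simp

theorem Y2_termsT {N : α → ℕ} {F : α → List (List (Bool × ℕ × ℕ))} (hN : Poly N)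
    (hF : Poly F) : Poly (fun a => termsT (N a) (F a)) := by
  refine Poly.flatMap (F := fun a j => ((F a).getD j []).map fun b =>
    (18 * sgnZ b.1, [1 + 2 * N a + j, 1 + b.2.1, 1 + N a + b.2.2]))
    (UPoly.length hF).range ?_
  refine Poly.map (F := fun (x : α × ℕ) (b : Bool × ℕ × ℕ) =>
    (18 * sgnZ b.1, [1 + 2 * N x.1 + x.2, 1 + b.2.1, 1 + N x.1 + b.2.2]))
    (Poly.getD (hF.comp (Poly.fst Poly.id)) (Poly.snd Poly.id) (Poly.const [])) ?_
  have kN : Poly (fun y : (α × ℕ) × (Bool × ℕ × ℕ) => N y.1.1) :=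
    hN.comp (Poly.fst (Poly.fst Poly.id))
  have kj : Poly (fun y : (α × ℕ) × (Bool × ℕ × ℕ) => y.1.2) := Poly.snd (Poly.fst Poly.id)
  have kb : Poly (fun y : (α × ℕ) × (Bool × ℕ × ℕ) => y.2) := Poly.snd Poly.id
  have e1 : Poly (fun y : (α × ℕ) × (Bool × ℕ × ℕ) => 1 + 2 * N y.1.1 + y.1.2) :=
    Poly.add (Poly.add (Poly.const 1) (Poly.mul (Poly.const 2) kN)) kj
  have e2 : Poly (fun y : (α × ℕ) × (Bool × ℕ × ℕ) => 1 + y.2.2.1) :=
    Poly.add (Poly.const 1) (Poly.fst (Poly.snd kb))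
  have e3 : Poly (fun y : (α × ℕ) × (Bool × ℕ × ℕ) => 1 + N y.1.1 + y.2.2.2) :=
    Poly.add (Poly.add (Poly.const 1) kN) (Poly.snd (Poly.snd kb))
  exact Poly.pair (Y2_sgn (Poly.fst kb))
    (Poly.cons e1 (Poly.cons e2 (Poly.cons e3 (Poly.const []))))

theorem Y2_nv {N : α → ℕ} {F : α → List (List (Bool × ℕ × ℕ))} (hN : UPoly N)
    (hF : Poly F) : UPoly (fun a => nv (N a) (F a)) :=
  UPoly.add (UPoly.add (UPoly.const 1) (UPoly.mul (UPoly.const 2) hN)) (UPoly.length hF)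

theorem Y2_mkH (κ : ℤ) {s N : α → ℕ} {F : α → List (List (Bool × ℕ × ℕ))} (hs : Poly s)
    (hN : UPoly N) (hF : Poly F) : Poly (fun a => mkH ((s a : ℕ) : ℤ) κ (N a) (F a)) :=
  Poly.pair (Y2_nv hN hF).toPoly (Poly.append (Y2_termsL κ hs (Y2_nv hN hF))
    (Poly.append (Y2_termsQ κ hs hN.toPoly (Y2_nv hN hF)) (Y2_termsT hN.toPoly hF)))

end

theorem redH_poly (κ : ℤ) : Poly (redH κ) :=
  Y2_mkH κ (Poly.add (Poly.mul (Poly.const 4) (Poly.length (poly_rl poly_redQ))) (Poly.const 5))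
    upoly_redN poly_redF

end Pool.Agent.NPC.H549HY
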