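import Pool.Agent.H549R2.HY.Y6

namespace Pool.Agent.NPC.H549HY

open Pool.Agent.H625R2 Pool.Agent.NPC.ER Pool.Agent.NPC.ER.Tens Pool.Agent.NPC.H670R2
open Pool.Agent.NPC.H549CV

theorem homotopy {c : ℂ} (hc : c ≠ 0) {α β γ : ℝ → ℂ} (hα : Continuous α) (hβ : Continuous β)
    (hγ : Continuous γ)
    (h1 : ∀ r : ℝ, 0 < r → r < 1 → ∀ t : ℂ, t.im = 0 → c * t ^ 3 + α r * t ^ 2 + β r * t + γ r ≠ 0)
    (h2 : ∀ t : ℂ, 0 ≤ t.im → c * t ^ 3 + α 1 * t ^ 2 + β 1 * t + γ 1 ≠ 0)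
    (t : ℂ) (ht : 0 < t.im) : c * t ^ 3 + α 0 * t ^ 2 + β 0 * t + γ 0 ≠ 0 := by
  intro h0
  have hcn : 0 < ‖c‖ := norm_pos_iff.mpr hc
  obtain ⟨Ma, hMa⟩ := (isCompact_Icc (a := (0 : ℝ)) (b := 1)).exists_bound_of_continuousOn
    hα.continuousOn
  obtain ⟨Mb, hMb⟩ := (isCompact_Icc (a := (0 : ℝ)) (b := 1)).exists_bound_of_continuousOn
    hβ.continuousOn
  obtain ⟨Mg, hMg⟩ := (isCompact_Icc (a := (0 : ℝ)) (b := 1)).exists_bound_of_continuousOn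
    hγ.continuousOn
  set A : Set (ℝ × ℂ) := {p | p.1 ∈ Set.Icc (0 : ℝ) 1 ∧ 0 ≤ p.2.im ∧
    c * p.2 ^ 3 + α p.1 * p.2 ^ 2 + β p.1 * p.2 + γ p.1 = 0} with hA
  have hclosed : IsClosed A := by
    have e1 : IsClosed {p : ℝ × ℂ | p.1 ∈ Set.Icc (0 : ℝ) 1} :=
      isClosed_Icc.preimage continuous_fst
    have e2 : IsClosed {p : ℝ × ℂ | 0 ≤ p.2.im} :=
      isClosed_le continuous_const (Complex.continuous_im.comp continuous_snd)
    have e3 : IsClosed {p : ℝ × ℂ | c * p.2 ^ 3 + α p.1 * p.2 ^ 2 + β p.1 * p.2 + γ p.1 = 0} := by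
      refine isClosed_eq ?_ continuous_const
      have a1 : Continuous fun p : ℝ × ℂ => α p.1 := hα.comp continuous_fst
      have a2 : Continuous fun p : ℝ × ℂ => β p.1 := hβ.comp continuous_fst
      have a3 : Continuous fun p : ℝ × ℂ => γ p.1 := hγ.comp continuous_fst
      fun_prop
    exact e1.inter (e2.inter e3)
  have hbd : A ⊆ Set.Icc (0 : ℝ) 1 ×ˢ Metric.closedBall (0 : ℂ) (1 + (Ma + Mb + Mg) / ‖c‖) := by
    rintro ⟨r, s⟩ ⟨hr, -, hs⟩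
    refine ⟨hr, ?_⟩
    simp only at hr hs
    rw [mem_closedBall_zero_iff]
    have ba := hMa r hr
    have bb := hMb r hr
    have bg := hMg r hr
    have pa : 0 ≤ Ma := (norm_nonneg _).trans ba
    have pb : 0 ≤ Mb := (norm_nonneg _).trans bb
    have pg : 0 ≤ Mg := (norm_nonneg _).trans bg
    have hq : 0 ≤ (Ma + Mb + Mg) / ‖c‖ := by positivity
    by_cases hs1 : ‖s‖ ≤ 1
    · linarith
    · push Not at hs1
      have e1 : c * s ^ 3 = -(α r * s ^ 2 + β r * s + γ r) := by linear_combination hs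
      have e2 : ‖c‖ * ‖s‖ ^ 3 ≤ Ma * ‖s‖ ^ 2 + Mb * ‖s‖ + Mg := by
        rw [← norm_pow, ← norm_mul, e1, norm_neg]
        refine (norm_add₃_le).trans ?_
        rw [norm_mul, norm_mul, norm_pow]
        gcongr
      have e3 : ‖c‖ * ‖s‖ ^ 3 ≤ (Ma + Mb + Mg) * ‖s‖ ^ 2 := by
        have hs2 : ‖s‖ ≤ ‖s‖ ^ 2 := by nlinarith
        have hs3 : 1 ≤ ‖s‖ ^ 2 := by nlinarith
        nlinarith [mul_le_mul_of_nonneg_left hs2 pb, mul_le_mul_of_nonneg_left hs3 pg]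
      have e4 : ‖c‖ * ‖s‖ ≤ Ma + Mb + Mg := by
        have hs2 : 0 < ‖s‖ ^ 2 := by positivity
        refine le_of_mul_le_mul_right ?_ hs2
        calc ‖c‖ * ‖s‖ * ‖s‖ ^ 2 = ‖c‖ * ‖s‖ ^ 3 := by ring
          _ ≤ _ := e3
      have e5 : ‖s‖ ≤ (Ma + Mb + Mg) / ‖c‖ := by
        rw [le_div_iff₀ hcn]
        linarith
      linarith
  have hcomp : IsCompact A :=
    (isCompact_Icc.prod (isCompact_closedBall _ _)).of_isClosed_subset hclosed hbd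
  have hne : A.Nonempty := ⟨(0, t), ⟨by simp, ht.le, h0⟩⟩
  obtain ⟨⟨r0, s0⟩, hmem, hmax⟩ := hcomp.exists_isMaxOn hne continuous_fst.continuousOn
  have hmax' : ∀ p ∈ A, p.1 ≤ r0 := fun p hp => hmax hp
  have hr01 : r0 < 1 := by
    rcases lt_or_eq_of_le hmem.1.2 with h | h
    · exact h
    · exfalso
      simp only at h
      have := hmem.2.2
      simp only [h] at this
      exact h2 s0 hmem.2.1 this
  obtain ⟨t0, ht0, ht0A⟩ : ∃ t0 : ℂ, 0 < t0.im ∧ (r0, t0) ∈ A := by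
    rcases lt_or_eq_of_le hmem.1.1 with h | h
    · refine ⟨s0, ?_, hmem⟩
      rcases lt_or_eq_of_le hmem.2.1 with h' | h'
      · exact h'
      · exact absurd hmem.2.2 (h1 r0 h hr01 s0 h'.symm)
    · simp only at h
      refine ⟨t, ht, ?_⟩
      rw [← h]
      exact ⟨by simp, ht.le, h0⟩
  have hcont : Continuous fun r : ℝ => ‖c * t0 ^ 3 + α r * t0 ^ 2 + β r * t0 + γ r‖ := by
    fun_prop
  have hz : ‖c * t0 ^ 3 + α r0 * t0 ^ 2 + β r0 * t0 + γ r0‖ < ‖c‖ * t0.im ^ 3 := by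
    have : c * t0 ^ 3 + α r0 * t0 ^ 2 + β r0 * t0 + γ r0 = 0 := ht0A.2.2
    rw [this, norm_zero]
    positivity
  have hev : ∀ᶠ r in nhds r0,
      ‖c * t0 ^ 3 + α r * t0 ^ 2 + β r * t0 + γ r‖ < ‖c‖ * t0.im ^ 3 :=
    hcont.continuousAt.eventually_lt continuousAt_const hz
  have hev2 : ∀ᶠ r in nhdsWithin r0 (Set.Ioi r0),
      ‖c * t0 ^ 3 + α r * t0 ^ 2 + β r * t0 + γ r‖ < ‖c‖ * t0.im ^ 3 ∧ r ∈ Set.Ioo r0 1 :=
    (hev.filter_mono nhdsWithin_le_nhds).and (Ioo_mem_nhdsGT hr01)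
  obtain ⟨r1, hr1, hr1m⟩ := hev2.exists
  obtain ⟨s, hs, hsn⟩ := near_root hc (α r1) (β r1) (γ r1) t0
  have hlt : ‖t0 - s‖ ^ 3 < t0.im ^ 3 := by
    refine lt_of_mul_lt_mul_left ?_ hcn.le
    exact lt_of_le_of_lt hsn hr1
  have hlt2 : ‖t0 - s‖ < t0.im := lt_of_pow_lt_pow_left₀ 3 ht0.le hlt
  have him : |(t0 - s).im| < t0.im := lt_of_le_of_lt (Complex.abs_im_le_norm _) hlt2
  rw [Complex.sub_im, abs_lt] at him
  have hsA : (r1, s) ∈ A :=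
    ⟨⟨(le_trans hmem.1.1 hr1m.1.le), hr1m.2.le⟩, by show 0 ≤ s.im; linarith, hs⟩
  have := hmax' _ hsA
  simp only at this
  exact absurd this (not_le.mpr hr1m.1)

end Pool.Agent.NPC.H549HY
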